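import Pool.Agent.H162R2.Sparse.Total

/-!
# Total list colourings around a set of precoloured vertices: sparse graphs

`P` is the set of the precoloured vertices; their vertex colours and the colours of the precoloured
edges have been removed from the lists.
-/

set_option autoImplicit false
set_option linter.unusedSectionVars false

namespace Pool.Agent.N577.DT

open Finset Pool.Agent.H162R2.Sparse

variable {V : Type} [Fintype V] [DecidableEq V]

/-- a total colouring from lists in which the vertices of `P` get no colour -/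
def LTH (P : Finset V) (G : SimpleGraph V) (L : V → V → Finset ℕ) (M : V → Finset ℕ) : Prop :=
  ∃ (f : V → V → ℕ) (g : V → ℕ), (∀ a b, G.Adj a b → f a b = f b a) ∧
    (∀ a b, G.Adj a b → f a b ∈ L a b) ∧
    (∀ a b c, G.Adj a b → G.Adj a c → b ≠ c → f a b ≠ f a c) ∧
    (∀ a, a ∉ P → g a ∈ M a) ∧ (∀ a b, a ∉ P → b ∉ P → G.Adj a b → g a ≠ g b) ∧
    (∀ a b, a ∉ P → G.Adj a b → g a ≠ f a b)

/-- colour the edge `u v` and recolour `u` -/
theorem ext_edgeH (P : Finset V) (G : SimpleGraph V) (u v : V) (huv : G.Adj u v)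
    (L : V → V → Finset ℕ) (M : V → Finset ℕ) (hsym : ∀ a b, L a b = L b a)
    (hcard : dg G u + dg G v + (if v ∈ P then 0 else 1) ≤ (L u v).card + 1)
    (hM : 2 * dg G u < (M u).card) (IH : LTH P (cutE G u v) L M) : LTH P G L M := by
  classical
  obtain ⟨f, g, hf1, hf2, hf3, hg1, hg2, hg3⟩ := IH
  have hu : v ∈ nb G u := (mem_nb G u v).2 huv
  have hv : u ∈ nb G v := (mem_nb G v u).2 huv.symm
  have hu1 : ((nb G u).erase v).card + 1 = dg G u := Finset.card_erase_add_one hu
  have hv1 : ((nb G v).erase u).card + 1 = dg G v := Finset.card_erase_add_one hv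
  obtain ⟨c, hc1, hc2⟩ : ∃ c ∈ L u v,
      c ∉ (((nb G u).erase v).image (f u) ∪ ((nb G v).erase u).image (f v)) ∪
        (if v ∈ P then ∅ else {g v}) := by
    apply Finset.exists_mem_notMem_of_card_lt_card
    have h0 := Finset.card_union_le
      (((nb G u).erase v).image (f u) ∪ ((nb G v).erase u).image (f v))
      (if v ∈ P then ∅ else {g v})
    have h1 := Finset.card_union_le (((nb G u).erase v).image (f u))
      (((nb G v).erase u).image (f v))
    have h2 := Finset.card_image_le (s := (nb G u).erase v) (f := f u)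
    have h3 := Finset.card_image_le (s := (nb G v).erase u) (f := f v)
    by_cases hvP : v ∈ P
    · rw [if_pos hvP] at h0 hcard ⊢
      rw [Finset.card_empty] at h0
      omega
    · rw [if_neg hvP] at h0 hcard ⊢
      rw [Finset.card_singleton] at h0
      omega
  rw [Finset.mem_union, Finset.mem_union, not_or, not_or] at hc2
  have hcg : v ∉ P → g v ≠ c := by
    intro hvP h
    apply hc2.2
    rw [if_neg hvP, Finset.mem_singleton]
    exact h.symm
  have hcu : ∀ b, G.Adj u b → b ≠ v → f u b ≠ c := by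
    intro b hb hbv h
    apply hc2.1.1
    rw [← h]
    exact Finset.mem_image_of_mem _ (Finset.mem_erase.2 ⟨hbv, (mem_nb G u b).2 hb⟩)
  have hcv : ∀ b, G.Adj v b → b ≠ u → f v b ≠ c := by
    intro b hb hbv h
    apply hc2.1.2
    rw [← h]
    exact Finset.mem_image_of_mem _ (Finset.mem_erase.2 ⟨hbv, (mem_nb G v b).2 hb⟩)
  let f' : V → V → ℕ := fun a b => if (a = u ∧ b = v) ∨ (a = v ∧ b = u) then c else f a b
  obtain ⟨m, hm1, hm2⟩ : ∃ m ∈ M u, m ∉ (nb G u).image g ∪ (nb G u).image (f' u) := by
    apply Finset.exists_mem_notMem_of_card_lt_card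
    have h1 := Finset.card_union_le ((nb G u).image g) ((nb G u).image (f' u))
    have h2 := Finset.card_image_le (s := nb G u) (f := g)
    have h3 := Finset.card_image_le (s := nb G u) (f := f' u)
    unfold dg at hM
    omega
  rw [Finset.mem_union, not_or] at hm2
  have hmg : ∀ b, G.Adj u b → g b ≠ m := by
    intro b hb h
    apply hm2.1
    rw [← h]
    exact Finset.mem_image_of_mem _ ((mem_nb G u b).2 hb)
  have hmf : ∀ b, G.Adj u b → f' u b ≠ m := by
    intro b hb h
    apply hm2.2
    rw [← h]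
    exact Finset.mem_image_of_mem _ ((mem_nb G u b).2 hb)
  have hf'sym : ∀ a b, G.Adj a b → f' a b = f' b a := by
    intro a b hab
    simp only [f']
    by_cases h : (a = u ∧ b = v) ∨ (a = v ∧ b = u)
    · rw [if_pos h, if_pos (by tauto)]
    · rw [if_neg h, if_neg (by tauto)]
      exact hf1 a b ((cutE_adj G u v a b).2 ⟨hab, h⟩)
  refine ⟨f', fun a => if a = u then m else g a, hf'sym, ?_, ?_, ?_, ?_, ?_⟩
  · intro a b hab
    simp only [f']
    by_cases h : (a = u ∧ b = v) ∨ (a = v ∧ b = u)
    · rw [if_pos h]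
      rcases h with ⟨rfl, rfl⟩ | ⟨rfl, rfl⟩
      · exact hc1
      · rw [hsym]
        exact hc1
    · rw [if_neg h]
      exact hf2 a b ((cutE_adj G u v a b).2 ⟨hab, h⟩)
  · intro a b d hab had hbd
    simp only [f']
    by_cases h : (a = u ∧ b = v) ∨ (a = v ∧ b = u)
    · rw [if_pos h]
      by_cases h' : (a = u ∧ d = v) ∨ (a = v ∧ d = u)
      · exfalso
        have huv' := huv.ne
        rcases h with ⟨rfl, rfl⟩ | ⟨rfl, rfl⟩ <;> rcases h' with ⟨h1, rfl⟩ | ⟨h1, rfl⟩ <;> tauto
      · rw [if_neg h']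
        rcases h with ⟨rfl, rfl⟩ | ⟨rfl, rfl⟩
        · exact (hcu d had (fun h => hbd h.symm)).symm
        · exact (hcv d had (fun h => hbd h.symm)).symm
    · rw [if_neg h]
      by_cases h' : (a = u ∧ d = v) ∨ (a = v ∧ d = u)
      · rw [if_pos h']
        rcases h' with ⟨rfl, rfl⟩ | ⟨rfl, rfl⟩
        · exact hcu b hab hbd
        · exact hcv b hab hbd
      · rw [if_neg h']
        exact hf3 a b d ((cutE_adj G u v a b).2 ⟨hab, h⟩) ((cutE_adj G u v a d).2 ⟨had, h'⟩) hbd
  · intro a haP
    simp only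
    by_cases ha : a = u
    · rw [if_pos ha, ha]
      exact hm1
    · rw [if_neg ha]
      exact hg1 a haP
  · intro a b haP hbP hab
    simp only
    by_cases ha : a = u
    · have hb : b ≠ u := by
        rintro rfl
        exact hab.ne ha
      rw [if_pos ha, if_neg hb]
      rw [ha] at hab
      exact (hmg b hab).symm
    · rw [if_neg ha]
      by_cases hb : b = u
      · rw [if_pos hb]
        rw [hb] at hab
        exact hmg a hab.symm
      · rw [if_neg hb]
        exact hg2 a b haP hbP ((cutE_adj G u v a b).2 ⟨hab, by tauto⟩)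
  · intro a b haP hab
    simp only
    by_cases ha : a = u
    · rw [if_pos ha]
      rw [ha] at hab ⊢
      exact (hmf b hab).symm
    · rw [if_neg ha]
      simp only [f']
      by_cases h : (a = u ∧ b = v) ∨ (a = v ∧ b = u)
      · rw [if_pos h]
        rcases h with ⟨h1, _⟩ | ⟨h1, _⟩
        · exact absurd h1 ha
        · rw [h1]
          exact hcg (h1 ▸ haP)
      · rw [if_neg h]
        exact hg3 a b haP ((cutE_adj G u v a b).2 ⟨hab, h⟩)

/-- colour the edge `u v` and keep the colours of the vertices -/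
theorem ext_edgeP (P : Finset V) (G : SimpleGraph V) (u v : V) (huv : G.Adj u v)
    (L : V → V → Finset ℕ) (M : V → Finset ℕ) (hsym : ∀ a b, L a b = L b a) (huP : u ∈ P)
    (hcard : dg G u + dg G v ≤ (L u v).card) (IH : LTH P (cutE G u v) L M) : LTH P G L M := by
  classical
  obtain ⟨f, g, hf1, hf2, hf3, hg1, hg2, hg3⟩ := IH
  by_cases hvP : v ∈ P
  · have hu : v ∈ nb G u := (mem_nb G u v).2 huv
    have hv : u ∈ nb G v := (mem_nb G v u).2 huv.symm
    have hu1 : ((nb G u).erase v).card + 1 = dg G u := Finset.card_erase_add_one hu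
    have hv1 : ((nb G v).erase u).card + 1 = dg G v := Finset.card_erase_add_one hv
    obtain ⟨c, hc1, hc2⟩ : ∃ c ∈ L u v,
        c ∉ ((nb G u).erase v).image (f u) ∪ ((nb G v).erase u).image (f v) := by
      apply Finset.exists_mem_notMem_of_card_lt_card
      have h1 := Finset.card_union_le (((nb G u).erase v).image (f u))
        (((nb G v).erase u).image (f v))
      have h2 := Finset.card_image_le (s := (nb G u).erase v) (f := f u)
      have h3 := Finset.card_image_le (s := (nb G v).erase u) (f := f v)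
      omega
    rw [Finset.mem_union, not_or] at hc2
    have hcu : ∀ b, G.Adj u b → b ≠ v → f u b ≠ c := by
      intro b hb hbv h
      apply hc2.1
      rw [← h]
      exact Finset.mem_image_of_mem _ (Finset.mem_erase.2 ⟨hbv, (mem_nb G u b).2 hb⟩)
    have hcv : ∀ b, G.Adj v b → b ≠ u → f v b ≠ c := by
      intro b hb hbv h
      apply hc2.2
      rw [← h]
      exact Finset.mem_image_of_mem _ (Finset.mem_erase.2 ⟨hbv, (mem_nb G v b).2 hb⟩)
    refine ⟨fun a b => if (a = u ∧ b = v) ∨ (a = v ∧ b = u) then c else f a b, g, ?_, ?_, ?_,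
      hg1, ?_, ?_⟩
    · intro a b hab
      simp only
      by_cases h : (a = u ∧ b = v) ∨ (a = v ∧ b = u)
      · rw [if_pos h, if_pos (by tauto)]
      · rw [if_neg h, if_neg (by tauto)]
        exact hf1 a b ((cutE_adj G u v a b).2 ⟨hab, h⟩)
    · intro a b hab
      simp only
      by_cases h : (a = u ∧ b = v) ∨ (a = v ∧ b = u)
      · rw [if_pos h]
        rcases h with ⟨rfl, rfl⟩ | ⟨rfl, rfl⟩
        · exact hc1
        · rw [hsym]
          exact hc1
      · rw [if_neg h]
        exact hf2 a b ((cutE_adj G u v a b).2 ⟨hab, h⟩)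
    · intro a b d hab had hbd
      simp only
      by_cases h : (a = u ∧ b = v) ∨ (a = v ∧ b = u)
      · rw [if_pos h]
        by_cases h' : (a = u ∧ d = v) ∨ (a = v ∧ d = u)
        · exfalso
          have huv' := huv.ne
          rcases h with ⟨rfl, rfl⟩ | ⟨rfl, rfl⟩ <;>
            rcases h' with ⟨h1, rfl⟩ | ⟨h1, rfl⟩ <;> tauto
        · rw [if_neg h']
          rcases h with ⟨rfl, rfl⟩ | ⟨rfl, rfl⟩
          · exact (hcu d had (fun h => hbd h.symm)).symm
          · exact (hcv d had (fun h => hbd h.symm)).symm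
      · rw [if_neg h]
        by_cases h' : (a = u ∧ d = v) ∨ (a = v ∧ d = u)
        · rw [if_pos h']
          rcases h' with ⟨rfl, rfl⟩ | ⟨rfl, rfl⟩
          · exact hcu b hab hbd
          · exact hcv b hab hbd
        · rw [if_neg h']
          exact hf3 a b d ((cutE_adj G u v a b).2 ⟨hab, h⟩)
            ((cutE_adj G u v a d).2 ⟨had, h'⟩) hbd
    · intro a b haP hbP hab
      refine hg2 a b haP hbP ((cutE_adj G u v a b).2 ⟨hab, ?_⟩)
      rintro (⟨rfl, _⟩ | ⟨rfl, _⟩)
      · exact haP huP
      · exact haP hvP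
    · intro a b haP hab
      have h : ¬ ((a = u ∧ b = v) ∨ (a = v ∧ b = u)) := by
        rintro (⟨rfl, _⟩ | ⟨rfl, _⟩)
        · exact haP huP
        · exact haP hvP
      simp only
      rw [if_neg h]
      exact hg3 a b haP ((cutE_adj G u v a b).2 ⟨hab, h⟩)
  · have hu : v ∈ nb G u := (mem_nb G u v).2 huv
    have hv : u ∈ nb G v := (mem_nb G v u).2 huv.symm
    have hu1 : ((nb G u).erase v).card + 1 = dg G u := Finset.card_erase_add_one hu
    have hv1 : ((nb G v).erase u).card + 1 = dg G v := Finset.card_erase_add_one hv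
    obtain ⟨c, hc1, hc2⟩ : ∃ c ∈ L u v,
        c ∉ (((nb G u).erase v).image (f u) ∪ ((nb G v).erase u).image (f v)) ∪ {g v} := by
      apply Finset.exists_mem_notMem_of_card_lt_card
      have h0 := Finset.card_union_le
        (((nb G u).erase v).image (f u) ∪ ((nb G v).erase u).image (f v)) {g v}
      have h1 := Finset.card_union_le (((nb G u).erase v).image (f u))
        (((nb G v).erase u).image (f v))
      have h2 := Finset.card_image_le (s := (nb G u).erase v) (f := f u)
      have h3 := Finset.card_image_le (s := (nb G v).erase u) (f := f v)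
      rw [Finset.card_singleton] at h0
      omega
    rw [Finset.mem_union, Finset.mem_union, not_or, not_or, Finset.mem_singleton] at hc2
    have hcu : ∀ b, G.Adj u b → b ≠ v → f u b ≠ c := by
      intro b hb hbv h
      apply hc2.1.1
      rw [← h]
      exact Finset.mem_image_of_mem _ (Finset.mem_erase.2 ⟨hbv, (mem_nb G u b).2 hb⟩)
    have hcv : ∀ b, G.Adj v b → b ≠ u → f v b ≠ c := by
      intro b hb hbv h
      apply hc2.1.2
      rw [← h]
      exact Finset.mem_image_of_mem _ (Finset.mem_erase.2 ⟨hbv, (mem_nb G v b).2 hb⟩)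
    refine ⟨fun a b => if (a = u ∧ b = v) ∨ (a = v ∧ b = u) then c else f a b, g, ?_, ?_, ?_,
      hg1, ?_, ?_⟩
    · intro a b hab
      simp only
      by_cases h : (a = u ∧ b = v) ∨ (a = v ∧ b = u)
      · rw [if_pos h, if_pos (by tauto)]
      · rw [if_neg h, if_neg (by tauto)]
        exact hf1 a b ((cutE_adj G u v a b).2 ⟨hab, h⟩)
    · intro a b hab
      simp only
      by_cases h : (a = u ∧ b = v) ∨ (a = v ∧ b = u)
      · rw [if_pos h]
        rcases h with ⟨rfl, rfl⟩ | ⟨rfl, rfl⟩
        · exact hc1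
        · rw [hsym]
          exact hc1
      · rw [if_neg h]
        exact hf2 a b ((cutE_adj G u v a b).2 ⟨hab, h⟩)
    · intro a b d hab had hbd
      simp only
      by_cases h : (a = u ∧ b = v) ∨ (a = v ∧ b = u)
      · rw [if_pos h]
        by_cases h' : (a = u ∧ d = v) ∨ (a = v ∧ d = u)
        · exfalso
          have huv' := huv.ne
          rcases h with ⟨rfl, rfl⟩ | ⟨rfl, rfl⟩ <;>
            rcases h' with ⟨h1, rfl⟩ | ⟨h1, rfl⟩ <;> tauto
        · rw [if_neg h']
          rcases h with ⟨rfl, rfl⟩ | ⟨rfl, rfl⟩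
          · exact (hcu d had (fun h => hbd h.symm)).symm
          · exact (hcv d had (fun h => hbd h.symm)).symm
      · rw [if_neg h]
        by_cases h' : (a = u ∧ d = v) ∨ (a = v ∧ d = u)
        · rw [if_pos h']
          rcases h' with ⟨rfl, rfl⟩ | ⟨rfl, rfl⟩
          · exact hcu b hab hbd
          · exact hcv b hab hbd
        · rw [if_neg h']
          exact hf3 a b d ((cutE_adj G u v a b).2 ⟨hab, h⟩)
            ((cutE_adj G u v a d).2 ⟨had, h'⟩) hbd
    · intro a b haP hbP hab
      refine hg2 a b haP hbP ((cutE_adj G u v a b).2 ⟨hab, ?_⟩)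
      rintro (⟨rfl, _⟩ | ⟨_, rfl⟩)
      · exact haP huP
      · exact hbP huP
    · intro a b haP hab
      simp only
      by_cases h : (a = u ∧ b = v) ∨ (a = v ∧ b = u)
      · rw [if_pos h]
        rcases h with ⟨rfl, _⟩ | ⟨rfl, _⟩
        · exact absurd huP haP
        · exact fun h => hc2.2 h.symm
      · rw [if_neg h]
        exact hg3 a b haP ((cutE_adj G u v a b).2 ⟨hab, h⟩)

/-- colour all edges at `X` and recolour the vertices of `X` -/
theorem ext_bipH (P : Finset V) (G : SimpleGraph V) (X : Finset V) (D : ℕ)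
    (L : V → V → Finset ℕ) (M : V → Finset ℕ) (hX : ∀ u ∈ X, ∀ v ∈ X, ¬ G.Adj u v)
    (hXP : ∀ u ∈ X, u ∉ P)
    (hθ : ∀ u, ∑ e ∈ (ES G X).filter (fun e => e.1 = u), (1 / (hh (ES G X) e.2 : ℚ)) ≤ 1 / 16)
    (hD : ∀ v, dg G v ≤ D) (hDP : ∀ v ∈ P, dg G v + 1 ≤ D)
    (hL : ∀ a b, G.Adj a b → D ≤ (L a b).card + 1)
    (hL1 : ∀ a b, G.Adj a b → a ∉ P → b ∉ P → D + 1 ≤ (L a b).card)
    (hM : ∀ u ∈ X, 2 * dg G u < (M u).card)
    (hsym : ∀ a b, L a b = L b a) (IH : LTH P (cutX G X) L M) : LTH P G L M := by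
  classical
  obtain ⟨f, g, hf1, hf2, hf3, hg1, hg2, hg3⟩ := IH
  let L' : V × V → Finset ℕ := fun e =>
    L e.1 e.2 \ (((nb G e.2).filter (fun v => ¬ v ∈ X)).image (f e.2) ∪
      (if e.2 ∈ P then ∅ else {g e.2}))
  obtain ⟨col, hc1, hc2⟩ := bip_list (ES G X) hθ L' (by
    intro e he
    have h1 := dg_split G X e.2
    have h2 := Finset.card_image_le (s := (nb G e.2).filter (fun v => ¬ v ∈ X)) (f := f e.2)
    have h3 := Finset.le_card_sdiff
      (((nb G e.2).filter (fun v => ¬ v ∈ X)).image (f e.2) ∪ (if e.2 ∈ P then ∅ else {g e.2}))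
      (L e.1 e.2)
    have h5 := hD e.2
    have h6 := Finset.card_union_le (((nb G e.2).filter (fun v => ¬ v ∈ X)).image (f e.2))
      (if e.2 ∈ P then ∅ else {g e.2})
    have he' := (mem_ES G X e).1 he
    simp only [L']
    by_cases h7 : e.2 ∈ P
    · have h4 := hL e.1 e.2 he'.1
      have h8 := hDP e.2 h7
      rw [if_pos h7] at h3 h6 ⊢
      rw [Finset.card_empty] at h6
      omega
    · have h4 := hL1 e.1 e.2 he'.1 (hXP _ he'.2) h7
      rw [if_neg h7] at h3 h6 ⊢
      rw [Finset.card_singleton] at h6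
      omega)
  have hcf : ∀ a b d, a ∉ X → b ∈ X → d ∉ X → G.Adj a b → G.Adj a d → col (b, a) ≠ f a d := by
    intro a b d ha hb hd hab had h
    have h1 := hc1 (b, a) ((mem_ES G X (b, a)).2 ⟨hab.symm, hb⟩)
    simp only [L'] at h1
    rw [Finset.mem_sdiff] at h1
    apply h1.2
    rw [h]
    exact Finset.mem_union_left _
      (Finset.mem_image_of_mem _ (Finset.mem_filter.2 ⟨(mem_nb G a d).2 had, hd⟩))
  have hcg : ∀ a b, a ∉ P → b ∈ X → G.Adj a b → g a ≠ col (b, a) := by
    intro a b haP hb hab h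
    have h1 := hc1 (b, a) ((mem_ES G X (b, a)).2 ⟨hab.symm, hb⟩)
    simp only [L'] at h1
    rw [Finset.mem_sdiff] at h1
    apply h1.2
    rw [← h]
    apply Finset.mem_union_right
    rw [if_neg haP]
    exact Finset.mem_singleton_self _
  let f' : V → V → ℕ := fun a b =>
    if a ∈ X then col (a, b) else if b ∈ X then col (b, a) else f a b
  have hm : ∀ u, ∃ m, u ∈ X → m ∈ M u ∧ m ∉ (nb G u).image g ∪ (nb G u).image (f' u) := by
    intro u
    by_cases hu : u ∈ X
    · obtain ⟨m, hm1, hm2⟩ : ∃ m ∈ M u, m ∉ (nb G u).image g ∪ (nb G u).image (f' u) := by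
        apply Finset.exists_mem_notMem_of_card_lt_card
        have h1 := Finset.card_union_le ((nb G u).image g) ((nb G u).image (f' u))
        have h2 := Finset.card_image_le (s := nb G u) (f := g)
        have h3 := Finset.card_image_le (s := nb G u) (f := f' u)
        have h4 := hM u hu
        unfold dg at h4
        omega
      exact ⟨m, fun _ => ⟨hm1, hm2⟩⟩
    · exact ⟨0, fun h => absurd h hu⟩
  choose m hm using hm
  have hm1 : ∀ u, u ∈ X → m u ∈ M u := fun u hu => (hm u hu).1
  have hmg : ∀ u b, u ∈ X → G.Adj u b → g b ≠ m u := by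
    intro u b hu hb h
    apply (hm u hu).2
    rw [← h]
    exact Finset.mem_union_left _ (Finset.mem_image_of_mem _ ((mem_nb G u b).2 hb))
  have hmf : ∀ u b, u ∈ X → G.Adj u b → f' u b ≠ m u := by
    intro u b hu hb h
    apply (hm u hu).2
    rw [← h]
    exact Finset.mem_union_right _ (Finset.mem_image_of_mem _ ((mem_nb G u b).2 hb))
  refine ⟨f', fun a => if a ∈ X then m a else g a, ?_, ?_, ?_, ?_, ?_, ?_⟩
  · intro a b hab
    simp only [f']
    by_cases ha : a ∈ X
    · have hb : b ∉ X := fun hb => hX a ha b hb hab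
      rw [if_pos ha, if_neg hb, if_pos ha]
    · by_cases hb : b ∈ X
      · rw [if_neg ha, if_pos hb, if_pos hb]
      · rw [if_neg ha, if_neg hb, if_neg hb, if_neg ha]
        exact hf1 a b ((cutX_adj G X a b).2 ⟨hab, ha, hb⟩)
  · intro a b hab
    simp only [f']
    by_cases ha : a ∈ X
    · rw [if_pos ha]
      have h1 := hc1 (a, b) ((mem_ES G X (a, b)).2 ⟨hab, ha⟩)
      simp only [L'] at h1
      exact (Finset.mem_sdiff.1 h1).1
    · by_cases hb : b ∈ X
      · rw [if_neg ha, if_pos hb]
        have h1 := hc1 (b, a) ((mem_ES G X (b, a)).2 ⟨hab.symm, hb⟩)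
        simp only [L'] at h1
        rw [hsym]
        exact (Finset.mem_sdiff.1 h1).1
      · rw [if_neg ha, if_neg hb]
        exact hf2 a b ((cutX_adj G X a b).2 ⟨hab, ha, hb⟩)
  · intro a b d hab had hbd
    simp only [f']
    by_cases ha : a ∈ X
    · rw [if_pos ha, if_pos ha]
      apply hc2 _ ((mem_ES G X (a, b)).2 ⟨hab, ha⟩) _ ((mem_ES G X (a, d)).2 ⟨had, ha⟩)
      · intro h
        exact hbd (Prod.ext_iff.1 h).2
      · left
        rfl
    · rw [if_neg ha, if_neg ha]
      by_cases hb : b ∈ X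
      · rw [if_pos hb]
        by_cases hd : d ∈ X
        · rw [if_pos hd]
          apply hc2 _ ((mem_ES G X (b, a)).2 ⟨hab.symm, hb⟩) _
            ((mem_ES G X (d, a)).2 ⟨had.symm, hd⟩)
          · intro h
            exact hbd (Prod.ext_iff.1 h).1
          · right
            rfl
        · rw [if_neg hd]
          exact hcf a b d ha hb hd hab had
      · rw [if_neg hb]
        by_cases hd : d ∈ X
        · rw [if_pos hd]
          exact (hcf a d b ha hd hb had hab).symm
        · rw [if_neg hd]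
          exact hf3 a b d ((cutX_adj G X a b).2 ⟨hab, ha, hb⟩)
            ((cutX_adj G X a d).2 ⟨had, ha, hd⟩) hbd
  · intro a haP
    simp only
    by_cases ha : a ∈ X
    · rw [if_pos ha]
      exact hm1 a ha
    · rw [if_neg ha]
      exact hg1 a haP
  · intro a b haP hbP hab
    simp only
    by_cases ha : a ∈ X
    · have hb : b ∉ X := fun hb => hX a ha b hb hab
      rw [if_pos ha, if_neg hb]
      exact (hmg a b ha hab).symm
    · rw [if_neg ha]
      by_cases hb : b ∈ X
      · rw [if_pos hb]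
        exact hmg b a hb hab.symm
      · rw [if_neg hb]
        exact hg2 a b haP hbP ((cutX_adj G X a b).2 ⟨hab, ha, hb⟩)
  · intro a b haP hab
    simp only
    by_cases ha : a ∈ X
    · rw [if_pos ha]
      exact (hmf a b ha hab).symm
    · rw [if_neg ha]
      simp only [f']
      rw [if_neg ha]
      by_cases hb : b ∈ X
      · rw [if_pos hb]
        exact hcg a b haP hb hab
      · rw [if_neg hb]
        exact hg3 a b haP ((cutX_adj G X a b).2 ⟨hab, ha, hb⟩)

end Pool.Agent.N577.DT
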