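import Pool.Agent.N577.DT.A

/-!
# Total list colourings around a set of precoloured vertices: the induction
-/

set_option autoImplicit false
set_option linter.unusedSectionVars false

namespace Pool.Agent.N577.DT

open Finset Pool.Agent.H162R2.Sparse

variable {V : Type} [Fintype V] [DecidableEq V]

theorem one_le_of_dens (G : SimpleGraph V) (a : ℝ) (hdens : Dens G a) (u v : V)
    (huv : G.Adj u v) : 1 ≤ a := by
  classical
  have h1 := hdens {u, v}
  have h2 : ({(u, v), (v, u)} : Finset (V × V)) ⊆
      (pr G).filter (fun e => e.1 ∈ ({u, v} : Finset V) ∧ e.2 ∈ ({u, v} : Finset V)) := by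
    intro e he
    rw [Finset.mem_insert, Finset.mem_singleton] at he
    rw [Finset.mem_filter, mem_pr]
    rcases he with rfl | rfl
    · exact ⟨huv, by simp, by simp⟩
    · exact ⟨huv.symm, by simp, by simp⟩
  have h3 := Finset.card_le_card h2
  have hne : (u, v) ≠ (v, u) := fun h => huv.ne (Prod.ext_iff.1 h).1
  rw [Finset.card_pair hne] at h3
  rw [Finset.card_pair huv.ne] at h1
  have h4 : (2 : ℝ) ≤ a * ((2 : ℕ) : ℝ) := le_trans (by exact_mod_cast h3) h1
  push_cast at h4
  linarith

theorem dg_cutX (G : SimpleGraph V) (X : Finset V) (v : V) (hv : v ∉ X) :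
    dg (cutX G X) v + ((nb G v).filter (fun w => w ∈ X)).card = dg G v := by
  classical
  have h1 := Finset.card_filter_add_card_filter_not (s := nb G v) (fun w => w ∈ X)
  have h2 : nb (cutX G X) v = (nb G v).filter (fun w => ¬ w ∈ X) := by
    ext w
    rw [Finset.mem_filter, mem_nb, mem_nb, cutX_adj]
    tauto
  unfold dg
  rw [h2]
  omega

/-- the structural lemma with a slightly weaker hypothesis -/
theorem structB (G : SimpleGraph V) (D : ℕ) (a : ℝ) (hD : ∀ v, dg G v ≤ D) (hdens : Dens G a)
    (ha : 34 * a * (1 + Real.log D) ≤ D) (hedge : ∃ u v, G.Adj u v)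
    (hno : ∀ u v, G.Adj u v → (dg G u : ℝ) ≤ 2 * a → D ≤ dg G u + dg G v) :
    ∃ X : Finset V, X.Nonempty ∧ (∀ u ∈ X, 1 ≤ dg G u ∧ (dg G u : ℝ) ≤ 2 * a) ∧
      (∀ u ∈ X, ∀ v ∈ X, ¬ G.Adj u v) ∧
      ∀ u, ∑ e ∈ (ES G X).filter (fun e => e.1 = u), (1 / (hh (ES G X) e.2 : ℚ)) ≤ 1 / 16 := by
  classical
  let T : Finset V := Finset.univ.filter (fun v => 1 ≤ dg G v)
  let S : Finset V := T.filter (fun v => (dg G v : ℝ) ≤ 2 * a)
  let R : Finset V := T.filter (fun v => ¬ (dg G v : ℝ) ≤ 2 * a)
  let B : Finset V := Finset.univ.filter (fun w => ∃ u ∈ S, G.Adj u w)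
  have hdpos : ∀ u v, G.Adj u v → 1 ≤ dg G v := by
    intro u v h
    unfold dg
    rw [Nat.one_le_iff_ne_zero, Finset.card_ne_zero]
    exact ⟨u, (mem_nb G v u).2 h.symm⟩
  have hmT : ∀ v, v ∈ T ↔ 1 ≤ dg G v := by
    intro v
    simp [T]
  have hT0 : T.Nonempty := by
    obtain ⟨u, v, h⟩ := hedge
    exact ⟨v, (hmT v).2 (hdpos u v h)⟩
  have hTpos : (0 : ℝ) < T.card := by
    exact_mod_cast Finset.card_pos.2 hT0
  have hsumT : (∑ v ∈ T, (dg G v : ℝ)) ≤ a * T.card := by
    have h1 := hdens T
    refine le_trans ?_ h1
    have h2 := card_ES G T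
    have h3 : (∑ v ∈ T, (dg G v : ℝ)) = ((ES G T).card : ℝ) := by
      rw [h2]
      push_cast
      rfl
    rw [h3]
    have h4 : (ES G T).card ≤ ((pr G).filter (fun e => e.1 ∈ T ∧ e.2 ∈ T)).card := by
      apply Finset.card_le_card
      intro e he
      rw [mem_ES] at he
      rw [Finset.mem_filter, mem_pr]
      exact ⟨he.1, he.2, (hmT _).2 (hdpos _ _ he.1)⟩
    exact_mod_cast h4
  have ha1 : 1 ≤ a := by
    obtain ⟨u, v, h⟩ := hedge
    exact one_le_of_dens G a hdens u v h
  have hlog : 0 ≤ Real.log (D : ℝ) := Real.log_natCast_nonneg D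
  have ha34 : 34 * a ≤ D := by nlinarith
  have hlog1 : 0 < Real.log (D : ℝ) := Real.log_pos (by linarith)
  have hRS : (S.card : ℝ) + R.card = T.card := by
    have h1 := Finset.card_filter_add_card_filter_not (s := T) (fun v => (dg G v : ℝ) ≤ 2 * a)
    exact_mod_cast h1
  have hR : 2 * a * R.card ≤ a * T.card := by
    refine le_trans ?_ hsumT
    have h1 : (∑ v ∈ R, (dg G v : ℝ)) ≤ ∑ v ∈ T, (dg G v : ℝ) := by
      apply Finset.sum_le_sum_of_subset_of_nonneg (Finset.filter_subset _ _)
      intro v _ _
      positivity
    refine le_trans ?_ h1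
    have h2 : 2 * a * (R.card : ℝ) = ∑ v ∈ R, (2 * a) := by
      rw [Finset.sum_const, nsmul_eq_mul]
      ring
    rw [h2]
    apply Finset.sum_le_sum
    intro v hv
    rw [Finset.mem_filter] at hv
    linarith [hv.2]
  have hS : (T.card : ℝ) ≤ 2 * S.card := by
    have h1 : 2 * (R.card : ℝ) ≤ T.card := by
      by_contra hcon
      push Not at hcon
      nlinarith
    linarith
  have hBT : B ⊆ T := by
    intro w hw
    rw [Finset.mem_filter] at hw
    obtain ⟨_, u, _, h⟩ := hw
    exact (hmT w).2 (hdpos u w h)
  have hB : ((D : ℝ) - 2 * a) * B.card ≤ 2 * a * S.card := by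
    have h1 : ((D : ℝ) - 2 * a) * B.card ≤ ∑ v ∈ B, (dg G v : ℝ) := by
      have h2 : ((D : ℝ) - 2 * a) * B.card = ∑ v ∈ B, ((D : ℝ) - 2 * a) := by
        rw [Finset.sum_const, nsmul_eq_mul]
        ring
      rw [h2]
      apply Finset.sum_le_sum
      intro w hw
      rw [Finset.mem_filter] at hw
      obtain ⟨_, u, hu, h⟩ := hw
      rw [Finset.mem_filter] at hu
      have h3 := hno u w h hu.2
      have h4 : (D : ℝ) ≤ dg G u + dg G w := by exact_mod_cast h3
      linarith [hu.2]
    have h2 : (∑ v ∈ B, (dg G v : ℝ)) ≤ ∑ v ∈ T, (dg G v : ℝ) := by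
      apply Finset.sum_le_sum_of_subset_of_nonneg hBT
      intro v _ _
      positivity
    nlinarith
  have hHW : 16 * (HW (ES G S) : ℝ) < (S.card : ℝ) := by
    have h1 := HW_le (ES G S) D (fun w => (hh_ES_le G S w).trans (hD w)) B (by
      intro e he
      rw [mem_ES] at he
      rw [Finset.mem_filter]
      exact ⟨Finset.mem_univ _, e.1, he.2, he.1⟩)
    have hBn : (0 : ℝ) ≤ B.card := by positivity
    have hSpos : (0 : ℝ) < S.card := by linarith
    have h2 : 16 * ((B.card : ℝ) * (1 + Real.log D)) < S.card := by
      rcases hBn.lt_or_eq with h3 | h3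
      · have h5 : 32 * a * (1 + Real.log D) < D - 2 * a := by nlinarith
        have h4 : 32 * a * (1 + Real.log D) * B.card < 2 * a * S.card := by
          refine lt_of_lt_of_le ?_ hB
          exact mul_lt_mul_of_pos_right h5 h3
        by_contra hcon
        push Not at hcon
        nlinarith
      · rw [← h3]
        simpa using hSpos
    linarith
  obtain ⟨X, hX1, hX2, hX3⟩ := peel (ES G S) S (by
    intro e he
    exact ((mem_ES G S e).1 he).2) (by
    have h1 : ((16 * HW (ES G S) : ℚ) : ℝ) < ((S.card : ℚ) : ℝ) := by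
      push_cast
      exact hHW
    exact_mod_cast h1)
  have hEX : (ES G S).filter (fun e => e.1 ∈ X) = ES G X := by
    ext e
    rw [Finset.mem_filter, mem_ES, mem_ES]
    constructor
    · rintro ⟨⟨h1, _⟩, h2⟩
      exact ⟨h1, h2⟩
    · rintro ⟨h1, h2⟩
      exact ⟨⟨h1, hX1 h2⟩, h2⟩
  rw [hEX] at hX3
  refine ⟨X, hX2, ?_, ?_, hX3⟩
  · intro u hu
    have h1 := hX1 hu
    rw [Finset.mem_filter] at h1
    exact ⟨(hmT u).1 h1.1, h1.2⟩
  · intro u hu v hv h
    have h1 := hX1 hu
    have h2 := hX1 hv
    rw [Finset.mem_filter] at h1 h2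
    have h3 := hno u v h h1.2
    have h4 : (D : ℝ) ≤ dg G u + dg G v := by exact_mod_cast h3
    linarith [h1.2, h2.2]

/-- **The induction.** -/
theorem mainH (D : ℕ) (a : ℝ) (ha : 34 * a * (1 + Real.log D) ≤ D) (P : Finset V)
    (L : V → V → Finset ℕ) (M : V → Finset ℕ)
    (hsym : ∀ a b, L a b = L b a) (hM0 : ∀ v, v ∉ P → (M v).Nonempty)
    (hM : ∀ v, v ∉ P → D ≤ (M v).card + 1) :
    ∀ (n : ℕ) (G : SimpleGraph V), (pr G).card = n → (∀ v, dg G v ≤ D) →
      (∀ v ∈ P, dg G v + 1 ≤ D) → Dens G a → (∀ u ∈ P, ∀ v ∈ P, ¬ G.Adj u v) →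
      (∀ v, ((nb G v).filter (fun w => w ∈ P)).card ≤ 2) →
      (∀ u v, G.Adj u v → D ≤ (L u v).card + 1) →
      (∀ u v, G.Adj u v → u ∉ P → v ∉ P → D + 1 ≤ (L u v).card) → LTH P G L M := by
  classical
  intro n
  induction n using Nat.strong_induction_on with
  | _ n ih =>
    intro G hn hD hDP hdens hP hP2 hL hL1
    -- monotonicity of the hypotheses
    have step : ∀ H : SimpleGraph V, (∀ x y, H.Adj x y → G.Adj x y) →
        (pr H).card < (pr G).card → LTH P H L M := by
      intro H hmono hlt
      apply ih _ (hn ▸ hlt) H rfl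
      · intro w
        exact (dg_mono hmono w).trans (hD w)
      · intro w hw
        exact (Nat.succ_le_succ (dg_mono hmono w)).trans (hDP w hw)
      · exact Dens_mono hmono hdens
      · intro u hu v hv h
        exact hP u hu v hv (hmono u v h)
      · intro v
        refine le_trans (Finset.card_le_card ?_) (hP2 v)
        apply Finset.filter_subset_filter
        intro w hw
        rw [mem_nb] at hw ⊢
        exact hmono v w hw
      · intro x y hxy
        exact hL x y (hmono x y hxy)
      · intro x y hxy
        exact hL1 x y (hmono x y hxy)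
    have hcutE : ∀ u v, G.Adj u v → LTH P (cutE G u v) L M := by
      intro u v huv
      have hmono : ∀ a b, (cutE G u v).Adj a b → G.Adj a b := by
        intro a b h
        exact ((cutE_adj G u v a b).1 h).1
      apply step _ hmono
      apply pr_card_lt hmono u v huv
      rw [cutE_adj]
      tauto
    by_cases hedge : ∃ u v, G.Adj u v
    · have ha1 : 1 ≤ a := by
        obtain ⟨u, v, h⟩ := hedge
        exact one_le_of_dens G a hdens u v h
      have hlog : 0 ≤ Real.log (D : ℝ) := Real.log_natCast_nonneg D
      have ha34 : 34 * a ≤ D := by nlinarith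
      by_cases hc1 : ∃ u v, G.Adj u v ∧ u ∉ P ∧ (dg G u : ℝ) ≤ 2 * a + 2 ∧
          dg G u + dg G v ≤ D + (if v ∈ P then 0 else 1)
      · obtain ⟨u, v, huv, huP, hu, hdeg⟩ := hc1
        apply ext_edgeH P G u v huv L M hsym
        · by_cases hvP : v ∈ P
          · rw [if_pos hvP] at hdeg ⊢
            have := hL u v huv
            omega
          · rw [if_neg hvP] at hdeg ⊢
            have := hL1 u v huv huP hvP
            omega
        · have h1 := hM u huP
          have h2 : (D : ℝ) ≤ (M u).card + 1 := by exact_mod_cast h1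
          have h3 : (2 * (dg G u : ℝ)) < (M u).card := by linarith
          exact_mod_cast h3
        · exact hcutE u v huv
      · by_cases hc2 : ∃ u v, G.Adj u v ∧ u ∈ P ∧ dg G u + dg G v + 1 ≤ D
        · obtain ⟨u, v, huv, huP, hdeg⟩ := hc2
          apply ext_edgeP P G u v huv L M hsym huP
          · have := hL u v huv
            omega
          · exact hcutE u v huv
        · push Not at hc1 hc2
          set Ps : Finset V := P.filter (fun p => (dg G p : ℝ) ≤ 2 * a) with hPs
          have hPsP : ∀ p, p ∈ Ps → p ∈ P ∧ (dg G p : ℝ) ≤ 2 * a := by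
            intro p hp
            rw [hPs, Finset.mem_filter] at hp
            exact hp
          have hcl : ∀ v, v ∉ Ps → dg G v ≤ dg (cutX G Ps) v + 2 := by
            intro v hv
            have h1 := dg_cutX G Ps v hv
            have h2 : ((nb G v).filter (fun w => w ∈ Ps)).card ≤ 2 := by
              refine le_trans (Finset.card_le_card ?_) (hP2 v)
              intro w hw
              rw [Finset.mem_filter] at hw ⊢
              exact ⟨hw.1, (hPsP w hw.2).1⟩
            omega
          have hno0 : ∀ v, v ∉ Ps → (∀ p ∈ Ps, ¬ G.Adj v p) → dg (cutX G Ps) v = dg G v := by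
            intro v hv h
            have h1 := dg_cutX G Ps v hv
            have h2 : (nb G v).filter (fun w => w ∈ Ps) = ∅ := by
              rw [Finset.filter_eq_empty_iff]
              intro w hw hwP
              rw [mem_nb] at hw
              exact h w hwP hw
            rw [h2, Finset.card_empty] at h1
            omega
          have hclP : ∀ v, v ∈ P → v ∉ Ps → dg (cutX G Ps) v = dg G v := by
            intro v hvP hv
            exact hno0 v hv (fun p hp h => hP v hvP p (hPsP p hp).1 h)
          have K1 : ∀ u v, (cutX G Ps).Adj u v → (dg (cutX G Ps) u : ℝ) ≤ 2 * a →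
              u ∉ P ∧ (∀ p ∈ Ps, ¬ G.Adj u p) ∧ dg (cutX G Ps) u = dg G u := by
            intro u v huv hu
            obtain ⟨huv1, huPs, hvPs⟩ := (cutX_adj G Ps u v).1 huv
            have huP : u ∉ P := by
              intro huP
              apply huPs
              rw [hPs, Finset.mem_filter]
              refine ⟨huP, ?_⟩
              rw [← hclP u huP huPs]
              exact hu
            have h1 : (dg G u : ℝ) ≤ 2 * a + 2 := by
              have h2 : (dg G u : ℝ) ≤ dg (cutX G Ps) u + 2 := by exact_mod_cast hcl u huPs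
              linarith
            have h3 : ∀ p ∈ Ps, ¬ G.Adj u p := by
              intro p hp hup
              have h4 := hc2 p u hup.symm (hPsP p hp).1
              have h5 := (hPsP p hp).2
              have h6 : (D : ℝ) < dg G p + dg G u + 1 := by exact_mod_cast h4
              linarith
            exact ⟨huP, h3, hno0 u huPs h3⟩
          have hmonoPs : ∀ a b, (cutX G Ps).Adj a b → G.Adj a b := by
            intro a b h
            exact ((cutX_adj G Ps a b).1 h).1
          have hedge' : ∃ u v, (cutX G Ps).Adj u v := by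
            by_contra hcon
            push Not at hcon
            have key : ∀ p y, G.Adj p y → p ∈ Ps → False := by
              intro p y hpy hp
              have hyP : y ∉ P := fun hy => hP p (hPsP p hp).1 y hy hpy
              have hyPs : y ∉ Ps := fun hy => hyP (hPsP y hy).1
              have h1 : dg (cutX G Ps) y = 0 := by
                unfold dg
                rw [Finset.card_eq_zero, Finset.eq_empty_iff_forall_notMem]
                intro w hw
                rw [mem_nb] at hw
                exact hcon y w hw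
              have h2 := hcl y hyPs
              have h3 := hc2 p y hpy (hPsP p hp).1
              have h4 := (hPsP p hp).2
              have h5 : (D : ℝ) < dg G p + dg G y + 1 := by exact_mod_cast h3
              have h6 : (dg G y : ℝ) ≤ 2 := by
                have : dg G y ≤ 2 := by omega
                exact_mod_cast this
              linarith
            obtain ⟨u, v, huv⟩ := hedge
            by_cases hu : u ∈ Ps
            · exact key u v huv hu
            · by_cases hv : v ∈ Ps
              · exact key v u huv.symm hv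
              · exact hcon u v ((cutX_adj G Ps u v).2 ⟨huv, hu, hv⟩)
          obtain ⟨X, hX1, hX2, hX3, hX4⟩ := structB (cutX G Ps) D a
            (fun v => (dg_mono hmonoPs v).trans (hD v)) (Dens_mono hmonoPs hdens) ha hedge' (by
            intro u v huv hu
            obtain ⟨huP, hu1, hu2⟩ := K1 u v huv hu
            obtain ⟨huv1, huPs, hvPs⟩ := (cutX_adj G Ps u v).1 huv
            have h1 : (dg G u : ℝ) ≤ 2 * a + 2 := by
              rw [← hu2]
              linarith
            have h2 := hc1 u v huv1 huP h1
            by_cases hvP : v ∈ P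
            · rw [if_pos hvP] at h2
              rw [hu2, hclP v hvP hvPs]
              omega
            · rw [if_neg hvP] at h2
              have h3 := hcl v hvPs
              rw [hu2]
              omega)
          have hXK : ∀ u ∈ X, u ∉ P ∧ (∀ p ∈ Ps, ¬ G.Adj u p) ∧ dg (cutX G Ps) u = dg G u ∧
              ∃ v, G.Adj u v := by
            intro u hu
            have h1 := hX2 u hu
            have h2 := h1.1
            unfold dg at h2
            rw [Nat.one_le_iff_ne_zero, Finset.card_ne_zero] at h2
            obtain ⟨v, hv⟩ := h2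
            rw [mem_nb] at hv
            obtain ⟨k1, k2, k3⟩ := K1 u v hv h1.2
            exact ⟨k1, k2, k3, v, hmonoPs u v hv⟩
          have hXPs : ∀ u ∈ X, u ∉ Ps := fun u hu h => (hXK u hu).1 (hPsP u h).1
          have hES : ES G X = ES (cutX G Ps) X := by
            ext e
            rw [mem_ES, mem_ES, cutX_adj]
            constructor
            · rintro ⟨h1, h2⟩
              exact ⟨⟨h1, hXPs _ h2, fun h3 => (hXK _ h2).2.1 _ h3 h1⟩, h2⟩
            · rintro ⟨⟨h1, _, _⟩, h2⟩
              exact ⟨h1, h2⟩
          have hXind : ∀ u ∈ X, ∀ v ∈ X, ¬ G.Adj u v := by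
            intro u hu v hv h
            exact hX3 u hu v hv ((cutX_adj G Ps u v).2 ⟨h, hXPs u hu, hXPs v hv⟩)
          have hmono : ∀ a b, (cutX G X).Adj a b → G.Adj a b := by
            intro a b h
            exact ((cutX_adj G X a b).1 h).1
          rw [← hES] at hX4
          refine ext_bipH P G X D L M hXind (fun u hu => (hXK u hu).1) hX4 hD hDP hL hL1 ?_
            hsym ?_
          · intro u hu
            have h1 := hM u (hXK u hu).1
            have h2 := (hX2 u hu).2
            rw [(hXK u hu).2.2.1] at h2
            have h3 : (D : ℝ) ≤ (M u).card + 1 := by exact_mod_cast h1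
            have h4 : (2 * (dg G u : ℝ)) < (M u).card := by linarith
            exact_mod_cast h4
          · apply step _ hmono
            obtain ⟨u, hu⟩ := hX1
            obtain ⟨v, hv⟩ := (hXK u hu).2.2.2
            apply pr_card_lt hmono u v hv
            rw [cutX_adj]
            tauto
    · push Not at hedge
      have hM0' : ∀ v, ∃ m, v ∉ P → m ∈ M v := by
        intro v
        by_cases hv : v ∈ P
        · exact ⟨0, fun h => absurd hv h⟩
        · obtain ⟨m, hm⟩ := hM0 v hv
          exact ⟨m, fun _ => hm⟩
      choose g hg using hM0'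
      exact ⟨fun _ _ => 0, g, fun x y h => absurd h (hedge x y),
        fun x y h => absurd h (hedge x y), fun x y z h => absurd h (hedge x y), hg,
        fun x y _ _ h => absurd h (hedge x y), fun x y _ h => absurd h (hedge x y)⟩

end Pool.Agent.N577.DT
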