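import Pool.Agent.N577.DT.B
import Pool.Agent.H892.LEC.Few

/-!
# Total list colourings around precoloured vertices: few edges at the vertices of large degree
-/

set_option autoImplicit false
set_option linter.unusedSectionVars false

namespace Pool.Agent.N577.DT

open Finset Pool.Agent.H162R2.Sparse Pool.Agent.H162R2.AG Pool.Agent.H892.LEC

variable {V : Type} [Fintype V] [DecidableEq V]

/-- extending the vertex colours from `T` to all vertices outside `P` -/
theorem labelsH (P : Finset V) (G : SimpleGraph V) (T : Finset V)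
    (M : V → Finset ℕ) (f0 : V → V → ℕ) (g0 : V → ℕ)
    (hdeg : ∀ v, v ∉ T → v ∉ P →
      dg G v + ((nb G v).filter (fun w => w ∈ T)).card < (M v).card)
    (hg1 : ∀ a, a ∉ P → g0 a ∈ M a)
    (hg2 : ∀ a b, a ∈ T → b ∈ T → a ∉ P → b ∉ P → G.Adj a b → g0 a ≠ g0 b) :
    ∀ S : Finset V, ∃ g : V → ℕ, (∀ a ∈ T, g a = g0 a) ∧ (∀ a, a ∉ P → g a ∈ M a) ∧
      (∀ a b, a ∈ T ∪ S → b ∈ T ∪ S → a ∉ P → b ∉ P → G.Adj a b → g a ≠ g b) ∧
      ∀ a b, a ∉ T → a ∉ P → a ∈ S → b ∈ T → G.Adj a b → g a ≠ f0 a b := by
  classical
  intro S
  induction S using Finset.induction_on with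
  | empty =>
    refine ⟨g0, fun a _ => rfl, hg1, ?_, ?_⟩
    · intro a b ha hb haP hbP hab
      rw [Finset.union_empty] at ha hb
      exact hg2 a b ha hb haP hbP hab
    · intro a b _ _ ha
      exact absurd ha (Finset.notMem_empty a)
  | insert v S hv ih =>
    obtain ⟨g, h1, h2, h3, h4⟩ := ih
    by_cases hvT : v ∈ T
    · refine ⟨g, h1, h2, ?_, ?_⟩
      · have hTS : T ∪ insert v S = T ∪ S := by
          ext x
          simp only [Finset.mem_union, Finset.mem_insert]
          constructor
          · rintro (h | rfl | h)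
            · exact Or.inl h
            · exact Or.inl hvT
            · exact Or.inr h
          · rintro (h | h)
            · exact Or.inl h
            · exact Or.inr (Or.inr h)
        rw [hTS]
        exact h3
      · intro a b haT haP ha hb hab
        rcases Finset.mem_insert.1 ha with rfl | ha
        · exact absurd hvT haT
        · exact h4 a b haT haP ha hb hab
    · by_cases hvP : v ∈ P
      · refine ⟨g, h1, h2, ?_, ?_⟩
        · intro a b ha hb haP hbP hab
          have hmem : ∀ x, x ∉ P → x ∈ T ∪ insert v S → x ∈ T ∪ S := by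
            intro x hxP hx
            rw [Finset.mem_union, Finset.mem_insert] at hx
            rw [Finset.mem_union]
            rcases hx with h | rfl | h
            · exact Or.inl h
            · exact absurd hvP hxP
            · exact Or.inr h
          exact h3 a b (hmem a haP ha) (hmem b hbP hb) haP hbP hab
        · intro a b haT haP ha hb hab
          rcases Finset.mem_insert.1 ha with rfl | ha
          · exact absurd hvP haP
          · exact h4 a b haT haP ha hb hab
      · obtain ⟨m, hm1, hm2⟩ : ∃ m ∈ M v, m ∉ (nb G v).image g ∪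
            ((nb G v).filter (fun w => w ∈ T)).image (f0 v) := by
          apply Finset.exists_mem_notMem_of_card_lt_card
          have k1 := Finset.card_union_le ((nb G v).image g)
            (((nb G v).filter (fun w => w ∈ T)).image (f0 v))
          have k2 := Finset.card_image_le (s := nb G v) (f := g)
          have k3 := Finset.card_image_le (s := (nb G v).filter (fun w => w ∈ T)) (f := f0 v)
          have k5 := hdeg v hvT hvP
          unfold dg at k5
          omega
        rw [Finset.mem_union, not_or] at hm2
        have hm3 : ∀ b, G.Adj v b → g b ≠ m := by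
          intro b hb h
          apply hm2.1
          rw [← h]
          exact Finset.mem_image_of_mem _ ((mem_nb G v b).2 hb)
        have hm4 : ∀ b, b ∈ T → G.Adj v b → m ≠ f0 v b := by
          intro b hbT hb h
          apply hm2.2
          rw [h]
          exact Finset.mem_image_of_mem _ (Finset.mem_filter.2 ⟨(mem_nb G v b).2 hb, hbT⟩)
        refine ⟨fun a => if a = v then m else g a, ?_, ?_, ?_, ?_⟩
        · intro a ha
          have hav : a ≠ v := fun h => hvT (h ▸ ha)
          simp only [if_neg hav]
          exact h1 a ha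
        · intro a haP
          by_cases ha : a = v
          · simp only [if_pos ha]
            rw [ha]
            exact hm1
          · simp only [if_neg ha]
            exact h2 a haP
        · intro a b ha hb haP hbP hab
          by_cases hav : a = v
          · have hbv : b ≠ v := by
              rintro rfl
              exact hab.ne hav
            simp only [if_pos hav, if_neg hbv]
            rw [hav] at hab
            exact (hm3 b hab).symm
          · by_cases hbv : b = v
            · simp only [if_neg hav, if_pos hbv]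
              rw [hbv] at hab
              exact hm3 a hab.symm
            · simp only [if_neg hav, if_neg hbv]
              apply h3 a b _ _ haP hbP hab
              · rcases Finset.mem_union.1 ha with h | h
                · exact Finset.mem_union_left _ h
                · exact Finset.mem_union_right _ (Finset.mem_of_mem_insert_of_ne h hav)
              · rcases Finset.mem_union.1 hb with h | h
                · exact Finset.mem_union_left _ h
                · exact Finset.mem_union_right _ (Finset.mem_of_mem_insert_of_ne h hbv)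
        · intro a b haT haP ha hb hab
          by_cases hav : a = v
          · simp only [if_pos hav]
            rw [hav] at hab ⊢
            exact hm4 b hb hab
          · simp only [if_neg hav]
            exact h4 a b haT haP (Finset.mem_of_mem_insert_of_ne ha hav) hb hab

/-- the combinatorial part -/
theorem combH (P : Finset V) (G : SimpleGraph V) (T : Finset V)
    (L : V → V → Finset ℕ) (M : V → Finset ℕ)
    (hdeg : ∀ v, v ∉ T → v ∉ P →
      dg G v + ((nb G v).filter (fun w => w ∈ T)).card < (M v).card)
    (h0 : LTH P (A_meetX G T) L M)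
    (hfin : ∀ W : V → Finset ℕ, (∀ x, (W x).card ≤ ((nb G x).filter (fun w => w ∈ T)).card +
        (if x ∈ P then 0 else 1)) →
      LC (cutX G T) (fun x y => L x y \ (W x ∪ W y))) : LTH P G L M := by
  classical
  obtain ⟨f0, g0, hf1, hf2, hf3, hg1, hg2, hg3⟩ := h0
  obtain ⟨g, k1, k2, k3, k4⟩ := labelsH P G T M f0 g0 hdeg hg1 (fun a b ha _ haP hbP hab =>
    hg2 a b haP hbP ⟨hab, Or.inl ha⟩) Finset.univ
  let W : V → Finset ℕ := fun a =>
    (if a ∈ P then ∅ else {g a}) ∪ ((nb G a).filter (fun w => w ∈ T)).image (f0 a)
  have hW : ∀ a, (W a).card ≤ ((nb G a).filter (fun w => w ∈ T)).card +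
      (if a ∈ P then 0 else 1) := by
    intro a
    have j1 := Finset.card_union_le (if a ∈ P then ∅ else {g a})
      (((nb G a).filter (fun w => w ∈ T)).image (f0 a))
    have j2 := Finset.card_image_le (s := (nb G a).filter (fun w => w ∈ T)) (f := f0 a)
    simp only [W]
    by_cases ha : a ∈ P
    · rw [if_pos ha] at j1 ⊢
      rw [if_pos ha]
      rw [Finset.card_empty] at j1
      omega
    · rw [if_neg ha] at j1 ⊢
      rw [if_neg ha]
      rw [Finset.card_singleton] at j1
      omega
  obtain ⟨f1, e1, e2, e3⟩ := hfin W hW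
  have hcut : ∀ a b, G.Adj a b → ¬ (a ∈ T ∨ b ∈ T) → (cutX G T).Adj a b := by
    intro a b hab h
    rw [not_or] at h
    exact (cutX_adj G T a b).2 ⟨hab, h.1, h.2⟩
  have hGT : ∀ a b, G.Adj a b → (a ∈ T ∨ b ∈ T) → (A_meetX G T).Adj a b := fun a b hab h =>
    ⟨hab, h⟩
  have hmix : ∀ a b c, G.Adj a b → G.Adj a c → (a ∈ T ∨ b ∈ T) → ¬ (a ∈ T ∨ c ∈ T) →
      f0 a b ≠ f1 a c := by
    intro a b c hab hac h h' heq
    have hbT : b ∈ T := by tauto
    have j1 := e2 a c (hcut a c hac h')
    simp only [Finset.mem_sdiff, Finset.mem_union, not_or] at j1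
    have j2 := j1.2.1
    simp only [W] at j2
    apply j2
    rw [← heq]
    exact Finset.mem_union_right _ (Finset.mem_image_of_mem _
      (Finset.mem_filter.2 ⟨(mem_nb G a b).2 hab, hbT⟩))
  refine ⟨fun a b => if a ∈ T ∨ b ∈ T then f0 a b else f1 a b, g, ?_, ?_, ?_, k2, ?_, ?_⟩
  · intro a b hab
    by_cases h : a ∈ T ∨ b ∈ T
    · simp only [if_pos h, if_pos h.symm]
      exact hf1 a b (hGT a b hab h)
    · have h' : ¬ (b ∈ T ∨ a ∈ T) := fun h' => h h'.symm
      simp only [if_neg h, if_neg h']
      exact e1 a b (hcut a b hab h)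
  · intro a b hab
    by_cases h : a ∈ T ∨ b ∈ T
    · simp only [if_pos h]
      exact hf2 a b (hGT a b hab h)
    · simp only [if_neg h]
      exact (Finset.mem_sdiff.1 (e2 a b (hcut a b hab h))).1
  · intro a b c hab hac hbc
    by_cases h : a ∈ T ∨ b ∈ T
    · by_cases h' : a ∈ T ∨ c ∈ T
      · simp only [if_pos h, if_pos h']
        exact hf3 a b c (hGT a b hab h) (hGT a c hac h') hbc
      · simp only [if_pos h, if_neg h']
        exact hmix a b c hab hac h h'
    · by_cases h' : a ∈ T ∨ c ∈ T
      · simp only [if_neg h, if_pos h']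
        exact (hmix a c b hac hab h' h).symm
      · simp only [if_neg h, if_neg h']
        exact e3 a b c (hcut a b hab h) (hcut a c hac h') hbc
  · intro a b haP hbP hab
    exact k3 a b (Finset.mem_union_right _ (Finset.mem_univ _))
      (Finset.mem_union_right _ (Finset.mem_univ _)) haP hbP hab
  · intro a b haP hab
    by_cases haT : a ∈ T
    · have h : a ∈ T ∨ b ∈ T := Or.inl haT
      simp only [if_pos h]
      rw [k1 a haT]
      exact hg3 a b haP (hGT a b hab h)
    · by_cases hbT : b ∈ T
      · have h : a ∈ T ∨ b ∈ T := Or.inr hbT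
        simp only [if_pos h]
        exact k4 a b haT haP (Finset.mem_univ _) hbT hab
      · have h : ¬ (a ∈ T ∨ b ∈ T) := by tauto
        simp only [if_neg h]
        have j1 := e2 a b (hcut a b hab h)
        simp only [Finset.mem_sdiff, Finset.mem_union, not_or] at j1
        have j2 := j1.2.1
        simp only [W] at j2
        intro heq
        apply j2
        apply Finset.mem_union_left
        rw [if_neg haP, Finset.mem_singleton]
        exact heq.symm

/-- the general combination -/
theorem comb_mainH (P : Finset V) (G : SimpleGraph V) (T : Finset V) (D : ℕ) (a : ℝ) (b : ℕ)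
    (s : ℝ) (hs : 0 ≤ s) (ha : 34 * a * (1 + Real.log D) ≤ D)
    (hdeg : ∀ v, dg G v ≤ D) (hDP : ∀ v ∈ P, dg G v + 1 ≤ D)
    (hP : ∀ u ∈ P, ∀ v ∈ P, ¬ G.Adj u v)
    (hP2 : ∀ v, ((nb G v).filter (fun w => w ∈ P)).card ≤ 2)
    (h1 : Dens (A_meetX G T) a)
    (h2 : ∀ v ∉ T, ((nb G v).filter (fun w => w ∈ T)).card ≤ b)
    (h3 : ∀ v ∉ T, (((nb G v).filter (fun w => w ∉ T)).card : ℝ) ≤ D - 2 * b - 2 - s)
    (L : V → V → Finset ℕ) (M : V → Finset ℕ) (hsym : ∀ x y, L x y = L y x)
    (hM0 : ∀ v, v ∉ P → (M v).Nonempty) (hM : ∀ v, v ∉ P → D ≤ (M v).card + 1)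
    (hL : ∀ x y, G.Adj x y → D ≤ (L x y).card + 1)
    (hL1 : ∀ x y, G.Adj x y → x ∉ P → y ∉ P → D + 1 ≤ (L x y).card)
    (hcol : ∀ (d : ℕ) (W : V → Finset ℕ), d ≤ D → (d : ℝ) ≤ D - 2 * b - 2 - s →
      (∀ v, dg (cutX G T) v ≤ d) →
      (∀ v ∉ T, (W v).card ≤ b + (if v ∈ P then 0 else 1)) →
      LC (cutX G T) (fun x y => L x y \ (W x ∪ W y))) : LTH P G L M := by
  classical
  have hmonoA : ∀ x y, (A_meetX G T).Adj x y → G.Adj x y := fun x y hxy => hxy.1
  have h0 : LTH P (A_meetX G T) L M := by
    refine mainH D a ha P L M hsym hM0 hM _ (A_meetX G T) rfl ?_ ?_ h1 ?_ ?_ ?_ ?_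
    · intro v
      exact (dg_mono hmonoA v).trans (hdeg v)
    · intro v hv
      exact (Nat.succ_le_succ (dg_mono hmonoA v)).trans (hDP v hv)
    · intro u hu v hv h
      exact hP u hu v hv h.1
    · intro v
      refine le_trans (Finset.card_le_card ?_) (hP2 v)
      apply Finset.filter_subset_filter
      intro w hw
      rw [mem_nb] at hw ⊢
      exact hw.1
    · intro u v huv
      exact hL u v huv.1
    · intro u v huv
      exact hL1 u v huv.1
  refine combH P G T L M ?_ h0 ?_
  · intro v hv hvP
    have k0 : (((nb G v).filter (fun w => w ∈ T)).card : ℝ) ≤ b := by exact_mod_cast h2 v hv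
    have k1 := h3 v hv
    have k2 : (D : ℝ) ≤ (M v).card + 1 := by exact_mod_cast hM v hvP
    have k4 : dg G v = ((nb G v).filter (fun w => w ∈ T)).card +
        ((nb G v).filter (fun w => w ∉ T)).card := by
      unfold dg
      exact (card_filter_add_card_filter_not (s := nb G v) (fun w => w ∈ T)).symm
    have k5 : ((dg G v + ((nb G v).filter (fun w => w ∈ T)).card : ℕ) : ℝ) < (M v).card := by
      rw [k4]
      push_cast
      linarith
    exact_mod_cast k5
  · intro W hW
    by_cases hE : ∃ x y, (cutX G T).Adj x y
    · obtain ⟨x0, y0, hxy0⟩ := hE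
      haveI : Nonempty V := ⟨x0⟩
      obtain ⟨v0, hv0⟩ := Finite.exists_max (fun v : V => dg (cutX G T) v)
      have hpos : 0 < dg (cutX G T) v0 := by
        refine lt_of_lt_of_le ?_ (hv0 x0)
        unfold dg
        exact card_pos.2 ⟨y0, (mem_nb _ _ _).2 hxy0⟩
      have hv0T : v0 ∉ T := by
        unfold dg at hpos
        obtain ⟨w, hw⟩ := card_pos.1 hpos
        rw [mem_nb, cutX_adj] at hw
        exact hw.2.1
      have hd1 : dg (cutX G T) v0 ≤ ((nb G v0).filter (fun w => w ∉ T)).card := by
        unfold dg
        apply card_le_card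
        intro w hw
        rw [mem_nb, cutX_adj] at hw
        exact mem_filter.2 ⟨(mem_nb _ _ _).2 hw.1, hw.2.2⟩
      have hd2 : (dg (cutX G T) v0 : ℝ) ≤ D - 2 * b - 2 - s := by
        have := h3 v0 hv0T
        have h4 : (dg (cutX G T) v0 : ℝ) ≤ ((nb G v0).filter (fun w => w ∉ T)).card := by
          exact_mod_cast hd1
        linarith
      refine hcol (dg (cutX G T) v0) W ?_ hd2 hv0 ?_
      · exact (dg_mono (fun x y hxy => ((cutX_adj G T x y).1 hxy).1) v0).trans (hdeg v0)
      · intro v hv
        have e1 := h2 v hv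
        have e2 := hW v
        omega
    · push Not at hE
      exact ⟨fun _ _ => 0, fun x y h => absurd h (hE x y), fun x y h => absurd h (hE x y),
        fun x y z h => absurd h (hE x y)⟩

end Pool.Agent.N577.DT
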