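import Pool.Agent.H162R2.Sparse.Main
import Pool.Agent.H238R2.HY.Struct
import Pool.Agent.W378.KF.Ball
import Pool.Agent.W215.KF.Paths
import Pool.Agent.W305.KF.Mark
import Pool.Agent.W723.KF.Cut
import Pool.Agent.W177.KF.Hoef
import Pool.Agent.W613.KF.Flip
import Pool.Agent.W240.KF.Level
import Pool.Agent.W853.KF.SG
import Pool.Agent.W52.KF.Rec
import Pool.Agent.W372.KF.Phase
import Pool.Agent.W319.KF.Edge

/-!
# Edge colourings that avoid a few colours at every vertex

If every vertex has at most `w ≥ 1` forbidden colours, then the edges of a graph of maximum degree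
`d` can be coloured with `d + 2500 w (1 + log (d + 1))` colours so that no edge gets a colour that
is forbidden at one of its ends.
-/

set_option autoImplicit false
set_option linter.unusedSectionVars false

namespace Pool.Agent.N577.DT

open Finset

section kf
open Pool.Agent.W842.KF

theorem t_cut : S_CUT :=
  Pool.Agent.W723.KF.t_cut Pool.Agent.W378.KF.t_ball Pool.Agent.W378.KF.t_bmeet
    Pool.Agent.W378.KF.t_grow Pool.Agent.W215.KF.t_paths Pool.Agent.W215.KF.t_cls
    Pool.Agent.W305.KF.t_mark1 Pool.Agent.W305.KF.t_mark2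

theorem t_level : S_LEVEL :=
  Pool.Agent.W240.KF.t_level t_cut
    (Pool.Agent.W613.KF.t_flip Pool.Agent.W215.KF.t_cls Pool.Agent.W177.KF.t_hoef)
    Pool.Agent.W215.KF.t_kempe

theorem t_edge : S_EDGE :=
  Pool.Agent.W319.KF.t_edge
    (Pool.Agent.W372.KF.t_phase t_level Pool.Agent.W853.KF.t_sg Pool.Agent.W52.KF.t_rec)

end kf

open Pool.Agent.H162R2.Sparse

variable {V : Type} [Fintype V] [DecidableEq V]

theorem kf_nb (G : SimpleGraph V) (v : V) : Pool.Agent.W842.KF.nb G v = nb G v := by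
  ext u
  rw [Pool.Agent.W842.KF.mem_nb, mem_nb]

/-- greedy list edge colouring -/
theorem greedy_LC (L : V → V → Finset ℕ) (hsym : ∀ a b, L a b = L b a) :
    ∀ (n : ℕ) (G : SimpleGraph V), (pr G).card = n →
      (∀ u v, G.Adj u v → dg G u + dg G v ≤ (L u v).card + 1) → LC G L := by
  classical
  intro n
  induction n using Nat.strong_induction_on with
  | _ n ih =>
    intro G hn hL
    by_cases hedge : ∃ u v, G.Adj u v
    · obtain ⟨u, v, huv⟩ := hedge
      have hmono : ∀ a b, (cutE G u v).Adj a b → G.Adj a b := by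
        intro a b h
        exact ((cutE_adj G u v a b).1 h).1
      apply ext_edge G u v huv L hsym (hL u v huv)
      apply ih _ _ (cutE G u v) rfl
      · intro x y hxy
        have h1 := hL x y (hmono x y hxy)
        have h2 := dg_mono hmono x
        have h3 := dg_mono hmono y
        omega
      · rw [← hn]
        apply pr_card_lt hmono u v huv
        rw [cutE_adj]
        tauto
    · push Not at hedge
      exact ⟨fun _ _ => 0, fun x y h => absurd h (hedge x y), fun x y h => absurd h (hedge x y),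
        fun x y z h => absurd h (hedge x y)⟩

/-- the edges whose colour is forbidden at one of the ends -/
def badW {V : Type} (Γ R : SimpleGraph V) (c : V → V → ℕ) (W : V → Finset ℕ)
    (hc : ∀ u v, c u v = c v u) : SimpleGraph V where
  Adj u v := (Γ \ R).Adj u v ∧ (c u v ∈ W u ∨ c u v ∈ W v)
  symm := by
    constructor
    rintro u v ⟨h1, h2⟩
    refine ⟨h1.symm, ?_⟩
    rw [hc v u]
    exact h2.symm
  loopless := ⟨fun u h => (Γ \ R).loopless.irrefl u h.1⟩

theorem getD_of_mem (S : Finset ℕ) (w x : ℕ) (hS : S.card ≤ w) (hx : x ∈ S) :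
    ∃ j, j < w ∧ S.toList.getD j 0 = x := by
  rw [← Finset.mem_toList] at hx
  obtain ⟨j, hj, hjx⟩ := List.mem_iff_getElem.1 hx
  refine ⟨j, ?_, ?_⟩
  · rw [Finset.length_toList] at hj
    omega
  · rw [List.getD_eq_getElem _ _ hj]
    exact hjx

theorem edge_avoid (Γ : SimpleGraph V) (d w k : ℕ) (hdeg : ∀ v, dg Γ v ≤ d) (W : V → Finset ℕ)
    (hW : ∀ v, (W v).card ≤ w) (hw : 1 ≤ w)
    (hk : (d : ℝ) + 2500 * w * (1 + Real.log (d + 1)) ≤ k) :
    LC Γ (fun a b => range k \ (W a ∪ W b)) := by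
  classical
  set K : ℕ := max (d + 1) 64 with hKd
  have hK64 : 64 ≤ K := le_max_right _ _
  have hKd1 : d + 1 ≤ K := le_max_left _ _
  obtain ⟨c, hc1, hc2, hc3⟩ := Pool.Agent.H238R2.HY.vizing Γ d (by
    intro v
    have h1 := hdeg v
    have h2 : Γ.degree v = dg Γ v := by
      rw [← SimpleGraph.card_neighborFinset_eq_degree]
      unfold dg
      congr 1
      ext u
      rw [mem_nb, SimpleGraph.mem_neighborFinset]
    omega)
  let y : Fin (2 * w) → V → V → ℕ := fun i v u =>
    if (i : ℕ) < w then (W v).toList.getD i 0 else (W u).toList.getD (i - w) 0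
  obtain ⟨R, c1, hR, hRc, hcol, hlt, hB⟩ := t_edge V Γ c K (2 * w) 1 y hK64 (by omega) le_rfl
    (by omega) ⟨hc1, hc3⟩ (fun v => by
      rw [kf_nb]
      have := hdeg v
      unfold dg at this
      omega) (fun u v huv => by
      have := hc2 u v huv
      omega)
  choose B hB1 hB2 using hB
  set C := badW Γ R c1 W hcol.1 with hC
  have hCB : ∀ v, nb C v ⊆ B v := by
    intro v u hu
    rw [mem_nb] at hu
    by_contra hnot
    have hu1 : (Γ \ R).Adj v u := hu.1
    obtain ⟨α, b, h1, h2, h3, h4⟩ := hB2 v u (by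
      rw [kf_nb, mem_nb]
      exact hu1) hnot
    rcases hu.2 with h5 | h5
    · obtain ⟨j, hj, hjx⟩ := getD_of_mem (W v) w _ (hW v) h5
      apply h4 ⟨j, by omega⟩
      simp only [y]
      rw [if_pos hj, hjx]
      exact ⟨h2, h3⟩
    · obtain ⟨j, hj, hjx⟩ := getD_of_mem (W u) w _ (hW u) h5
      apply h4 ⟨w + j, by omega⟩
      simp only [y]
      rw [if_neg (by omega), Nat.add_sub_cancel_left, hjx]
      exact ⟨h2, h3⟩
  have hlogK : 0 ≤ Real.log (K : ℝ) := Real.log_natCast_nonneg K
  have hw1 : (1 : ℝ) ≤ w := by exact_mod_cast hw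
  set w2 : ℕ := ⌊44 * Real.log K + (16 * w + 240 * w * Real.log K)⌋₊ with hw2
  have hw20 : (0 : ℝ) ≤ 44 * Real.log K + (16 * w + 240 * w * Real.log K) := by positivity
  set Γ2 := R ⊔ C with hΓ2
  have hdeg2 : ∀ v, dg Γ2 v ≤ w2 := by
    intro v
    rw [hw2, Nat.le_floor_iff hw20]
    have h1 : nb Γ2 v ⊆ nb R v ∪ B v := by
      intro u hu
      rw [mem_nb, hΓ2, SimpleGraph.sup_adj] at hu
      rw [mem_union]
      rcases hu with hu | hu
      · exact Or.inl ((mem_nb R v u).2 hu)
      · exact Or.inr (hCB v ((mem_nb C v u).2 hu))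
    have h2 : ((nb Γ2 v).card : ℝ) ≤ (nb R v).card + (B v).card := by
      exact_mod_cast (card_le_card h1).trans (card_union_le _ _)
    have h3 := hRc v
    rw [kf_nb] at h3
    have h4 := hB1 v
    push_cast at h4
    unfold dg
    nlinarith
  have hw2le : (w2 : ℝ) ≤ 44 * Real.log K + (16 * w + 240 * w * Real.log K) :=
    Nat.floor_le hw20
  -- the number of colours
  have hd0 : (0 : ℝ) ≤ d := by positivity
  have hlogd : 0 ≤ Real.log ((d : ℝ) + 1) := Real.log_nonneg (by linarith)
  have hlogKd : Real.log K ≤ 4.16 + Real.log ((d : ℝ) + 1) := by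
    have h1 : (K : ℝ) ≤ 64 * ((d : ℝ) + 1) := by
      have h2 : K ≤ 64 * (d + 1) := by
        rw [hKd]
        apply max_le
        · omega
        · omega
      exact_mod_cast h2
    have h3 : (0 : ℝ) < K := by
      have : (64 : ℝ) ≤ K := by exact_mod_cast hK64
      linarith
    have h4 := Real.log_le_log h3 h1
    rw [Real.log_mul (by norm_num) (by linarith)] at h4
    have h5 : Real.log 64 ≤ 4.16 := by
      have h6 : (64 : ℝ) = 2 ^ 6 := by norm_num
      rw [h6, Real.log_pow]
      have := Real.log_two_lt_d9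
      push_cast
      linarith
    linarith
  have hkK : K + 2 * w2 + 2 * w ≤ k := by
    have h1 : (K : ℝ) ≤ d + 64 := by
      have : K ≤ d + 64 := by
        rw [hKd]
        apply max_le
        · omega
        · omega
      exact_mod_cast this
    have h2 : (K : ℝ) + 2 * w2 + 2 * w ≤ k := by
      refine le_trans ?_ hk
      have h3 : (w : ℝ) * Real.log K ≤ w * (4.16 + Real.log ((d : ℝ) + 1)) :=
        mul_le_mul_of_nonneg_left hlogKd (by linarith)
      have h4 : Real.log K ≤ w * (4.16 + Real.log ((d : ℝ) + 1)) := by nlinarith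
      have h5 : 0 ≤ (w : ℝ) * Real.log ((d : ℝ) + 1) := by positivity
      nlinarith
    exact_mod_cast h2
  obtain ⟨c2, e1, e2, e3⟩ := greedy_LC (fun a b => Finset.Ico K k \ (W a ∪ W b)) (by
    intro a b
    rw [Finset.union_comm]) _ Γ2 rfl (by
    intro u v _
    have h1 := Finset.le_card_sdiff (W u ∪ W v) (Finset.Ico K k)
    have h2 := Finset.card_union_le (W u) (W v)
    have h3 := hW u
    have h4 := hW v
    have h5 := hdeg2 u
    have h6 := hdeg2 v
    rw [Nat.card_Ico] at h1
    omega)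
  have hold : ∀ u v, Γ.Adj u v → ¬ Γ2.Adj u v → (Γ \ R).Adj u v ∧ c1 u v ∉ W u ∧
      c1 u v ∉ W v ∧ c1 u v < K := by
    intro u v h1 h2
    have h3 : (Γ \ R).Adj u v := by
      rw [SimpleGraph.sdiff_adj]
      exact ⟨h1, fun h => h2 (by rw [hΓ2, SimpleGraph.sup_adj]; exact Or.inl h)⟩
    have h4 : ¬ C.Adj u v := fun h => h2 (by rw [hΓ2, SimpleGraph.sup_adj]; exact Or.inr h)
    refine ⟨h3, fun h => h4 ⟨h3, Or.inl h⟩, fun h => h4 ⟨h3, Or.inr h⟩, hlt u v h3⟩
  have hnew : ∀ u v, Γ2.Adj u v → K ≤ c2 u v ∧ c2 u v < k ∧ c2 u v ∉ W u ∧ c2 u v ∉ W v := by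
    intro u v h
    have h1 := e2 u v h
    rw [Finset.mem_sdiff, Finset.mem_Ico, Finset.mem_union, not_or] at h1
    exact ⟨h1.1.1, h1.1.2, h1.2.1, h1.2.2⟩
  refine ⟨fun u v => if Γ2.Adj u v then c2 u v else c1 u v, ?_, ?_, ?_⟩
  · intro u v huv
    simp only
    by_cases h : Γ2.Adj u v
    · rw [if_pos h, if_pos h.symm]
      exact e1 u v h
    · rw [if_neg h, if_neg (fun h' => h h'.symm)]
      exact hcol.1 u v
  · intro u v huv
    simp only
    rw [Finset.mem_sdiff, Finset.mem_range, Finset.mem_union, not_or]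
    by_cases h : Γ2.Adj u v
    · rw [if_pos h]
      obtain ⟨_, h2, h3, h4⟩ := hnew u v h
      exact ⟨h2, h3, h4⟩
    · rw [if_neg h]
      obtain ⟨_, h2, h3, h4⟩ := hold u v huv h
      exact ⟨by omega, h2, h3⟩
  · intro u v x huv hux hvx
    simp only
    by_cases h : Γ2.Adj u v
    · rw [if_pos h]
      obtain ⟨h1, _, _, _⟩ := hnew u v h
      by_cases h' : Γ2.Adj u x
      · rw [if_pos h']
        exact e3 u v x h h' hvx
      · rw [if_neg h']
        obtain ⟨_, _, _, h4⟩ := hold u x hux h'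
        omega
    · rw [if_neg h]
      obtain ⟨h0, _, _, h4⟩ := hold u v huv h
      by_cases h' : Γ2.Adj u x
      · rw [if_pos h']
        obtain ⟨h1, _, _, _⟩ := hnew u x h'
        omega
      · rw [if_neg h']
        obtain ⟨h0', _, _, _⟩ := hold u x hux h'
        exact hcol.2 u v x h0 h0' hvx

end Pool.Agent.N577.DT
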