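import Pool.Agent.N577.DT.D
import Pool.Agent.H892.LEC.FewP
import Pool.Agent.W583.KF.Lab

/-!
# (p,1)-total labellings: few edges at the vertices of large degree, without the order of the graph
-/

set_option autoImplicit false
set_option linter.unusedSectionVars false

namespace Pool.Agent.N577.DT

open Finset Pool.Agent.H162R2.Sparse Pool.Agent.H162R2.AG Pool.Agent.H892.LEC

variable {V : Type} [Fintype V] [DecidableEq V]

/-- the edges whose label is forbidden at one of the ends -/
def badP {V : Type} (Γ R : SimpleGraph V) (c : V → V → ℕ) (p : ℕ) (g : V → ℕ)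
    (W : V → Finset ℕ) (hc : ∀ u v, c u v = c v u) : SimpleGraph V where
  Adj u v := (Γ \ R).Adj u v ∧
    ((c u v ∈ W u ∨ c u v ∈ blk p (g u)) ∨ (c u v ∈ W v ∨ c u v ∈ blk p (g v)))
  symm := by
    constructor
    rintro u v ⟨h1, h2⟩
    refine ⟨h1.symm, ?_⟩
    rw [hc v u]
    exact h2.symm
  loopless := ⟨fun u h => (Γ \ R).loopless.irrefl u h.1⟩

theorem away_blk {x t p α b : ℕ} (hp : 1 ≤ p) (hb : 2 * p - 1 ≤ b) (h1 : α ≤ x)
    (h2 : x < α + b)
    (h3 : ¬ (α ≤ t - (p - 1) ∧ t - (p - 1) < α + b))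
    (h4 : ¬ (α ≤ t + (p - 1) ∧ t + (p - 1) < α + b)) : x ∉ blk p t := by
  intro h
  unfold blk at h
  rw [Finset.mem_Ico] at h
  omega

/-- edge labellings that stay away from the labels of the vertices and avoid a few more labels -/
theorem edge_avoidP (Γ : SimpleGraph V) (d p b N : ℕ) (hp : 1 ≤ p) (hdeg : ∀ v, dg Γ v ≤ d)
    (g : V → ℕ) (W : V → Finset ℕ) (hW : ∀ v, (W v).card ≤ b)
    (hN : (d : ℝ) + 3300 * (b + 2) * (p + Real.log (d + 1)) ≤ N) :
    LC Γ (fun u v => range N \ ((W u ∪ blk p (g u)) ∪ (W v ∪ blk p (g v)))) := by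
  classical
  set K : ℕ := max (d + 1) (64 + 2 * p) with hKd
  have hK64 : 64 + 2 * p ≤ K := le_max_right _ _
  have hKd1 : d + 1 ≤ K := le_max_left _ _
  obtain ⟨c, hc1, hc2, hc3⟩ := Pool.Agent.H238R2.HY.vizing Γ d (by
    intro v
    have h1 := hdeg v
    have h2 : Γ.degree v = dg Γ v := by
      rw [← SimpleGraph.card_neighborFinset_eq_degree]
      unfold dg
      congr 1
      ext u
      rw [mem_nb, SimpleGraph.mem_neighborFinset]
    omega)
  let y : Fin (2 * b + 4) → V → V → ℕ := fun i v u =>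
    if (i : ℕ) < b then (W v).toList.getD i 0 else
    if (i : ℕ) < 2 * b then (W u).toList.getD (i - b) 0 else
    if (i : ℕ) = 2 * b then g v - (p - 1) else
    if (i : ℕ) = 2 * b + 1 then g v + (p - 1) else
    if (i : ℕ) = 2 * b + 2 then g u - (p - 1) else g u + (p - 1)
  obtain ⟨R, c1, hR, hRc, hcol, hlt, hB⟩ := t_edge V Γ c K (2 * b + 4) (2 * p - 1) y (by omega)
    (by omega) (by omega)
    (by omega) ⟨hc1, hc3⟩ (fun v => by
      rw [kf_nb]
      have := hdeg v
      unfold dg at this
      omega) (fun u v huv => by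
      have := hc2 u v huv
      omega)
  choose B hB1 hB2 using hB
  set C := badP Γ R c1 p g W hcol.1 with hC
  have hCB : ∀ v, nb C v ⊆ B v := by
    intro v u hu
    rw [mem_nb] at hu
    by_contra hnot
    have hu1 : (Γ \ R).Adj v u := hu.1
    obtain ⟨α, b', h1, h2, h3, h4⟩ := hB2 v u (by
      rw [kf_nb, mem_nb]
      exact hu1) hnot
    rcases hu.2 with (h5 | h5) | (h5 | h5)
    · obtain ⟨j, hj, hjx⟩ := getD_of_mem (W v) b _ (hW v) h5
      apply h4 ⟨j, by omega⟩
      simp only [y]
      rw [if_pos hj, hjx]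
      exact ⟨h2, h3⟩
    · have e0 := h4 ⟨2 * b, by omega⟩
      have e1 := h4 ⟨2 * b + 1, by omega⟩
      have z0 : y ⟨2 * b, by omega⟩ v u = g v - (p - 1) := by
        show (if 2 * b < b then (W v).toList.getD (2 * b) 0 else
          if 2 * b < 2 * b then (W u).toList.getD (2 * b - b) 0 else
          if 2 * b = 2 * b then g v - (p - 1) else
          if 2 * b = 2 * b + 1 then g v + (p - 1) else
          if 2 * b = 2 * b + 2 then g u - (p - 1) else g u + (p - 1)) = g v - (p - 1)
        rw [if_neg (by omega), if_neg (by omega), if_pos rfl]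
      have z1 : y ⟨2 * b + 1, by omega⟩ v u = g v + (p - 1) := by
        show (if 2 * b + 1 < b then (W v).toList.getD (2 * b + 1) 0 else
          if 2 * b + 1 < 2 * b then (W u).toList.getD (2 * b + 1 - b) 0 else
          if 2 * b + 1 = 2 * b then g v - (p - 1) else
          if 2 * b + 1 = 2 * b + 1 then g v + (p - 1) else
          if 2 * b + 1 = 2 * b + 2 then g u - (p - 1) else g u + (p - 1)) = g v + (p - 1)
        rw [if_neg (by omega), if_neg (by omega), if_neg (by omega), if_pos rfl]
      rw [z0] at e0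
      rw [z1] at e1
      exact away_blk hp h1 h2 h3 e0 e1 h5
    · obtain ⟨j, hj, hjx⟩ := getD_of_mem (W u) b _ (hW u) h5
      apply h4 ⟨b + j, by omega⟩
      simp only [y]
      rw [if_neg (by omega), if_pos (by omega), Nat.add_sub_cancel_left, hjx]
      exact ⟨h2, h3⟩
    · have e0 := h4 ⟨2 * b + 2, by omega⟩
      have e1 := h4 ⟨2 * b + 3, by omega⟩
      have z0 : y ⟨2 * b + 2, by omega⟩ v u = g u - (p - 1) := by
        show (if 2 * b + 2 < b then (W v).toList.getD (2 * b + 2) 0 else
          if 2 * b + 2 < 2 * b then (W u).toList.getD (2 * b + 2 - b) 0 else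
          if 2 * b + 2 = 2 * b then g v - (p - 1) else
          if 2 * b + 2 = 2 * b + 1 then g v + (p - 1) else
          if 2 * b + 2 = 2 * b + 2 then g u - (p - 1) else g u + (p - 1)) = g u - (p - 1)
        rw [if_neg (by omega), if_neg (by omega), if_neg (by omega), if_neg (by omega),
          if_pos rfl]
      have z1 : y ⟨2 * b + 3, by omega⟩ v u = g u + (p - 1) := by
        show (if 2 * b + 3 < b then (W v).toList.getD (2 * b + 3) 0 else
          if 2 * b + 3 < 2 * b then (W u).toList.getD (2 * b + 3 - b) 0 else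
          if 2 * b + 3 = 2 * b then g v - (p - 1) else
          if 2 * b + 3 = 2 * b + 1 then g v + (p - 1) else
          if 2 * b + 3 = 2 * b + 2 then g u - (p - 1) else g u + (p - 1)) = g u + (p - 1)
        rw [if_neg (by omega), if_neg (by omega), if_neg (by omega), if_neg (by omega),
          if_neg (by omega)]
      rw [z0] at e0
      rw [z1] at e1
      exact away_blk hp h1 h2 h3 e0 e1 h5
  have hlogK : 0 ≤ Real.log (K : ℝ) := Real.log_natCast_nonneg K
  have hb0 : (0 : ℝ) ≤ b := by positivity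
  have hpr : (1 : ℝ) ≤ p := by exact_mod_cast hp
  have hp21 : ((2 * p - 1 : ℕ) : ℝ) = 2 * p - 1 := by
    rw [Nat.cast_sub (by omega)]
    push_cast
    ring
  set w2 : ℕ := ⌊44 * Real.log K + (2 * b + 4) * (16 * p + 120 * Real.log K)⌋₊ with hw2
  have hw20 : (0 : ℝ) ≤ 44 * Real.log K + (2 * b + 4) * (16 * p + 120 * Real.log K) := by
    positivity
  set Γ2 := R ⊔ C with hΓ2
  have hdeg2 : ∀ v, dg Γ2 v ≤ w2 := by
    intro v
    rw [hw2, Nat.le_floor_iff hw20]
    have h1 : nb Γ2 v ⊆ nb R v ∪ B v := by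
      intro u hu
      rw [mem_nb, hΓ2, SimpleGraph.sup_adj] at hu
      rw [mem_union]
      rcases hu with hu | hu
      · exact Or.inl ((mem_nb R v u).2 hu)
      · exact Or.inr (hCB v ((mem_nb C v u).2 hu))
    have h2 : ((nb Γ2 v).card : ℝ) ≤ (nb R v).card + (B v).card := by
      exact_mod_cast (card_le_card h1).trans (card_union_le _ _)
    have h3 := hRc v
    rw [kf_nb] at h3
    have h4 := hB1 v
    rw [hp21] at h4
    push_cast at h4
    unfold dg
    nlinarith
  have hw2le : (w2 : ℝ) ≤ 44 * Real.log K + (2 * b + 4) * (16 * p + 120 * Real.log K) :=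
    Nat.floor_le hw20
  -- the number of labels
  have hd0 : (0 : ℝ) ≤ d := by positivity
  have hlogd : 0 ≤ Real.log ((d : ℝ) + 1) := Real.log_nonneg (by linarith)
  have hlogKd : Real.log K ≤ 4.2 + p + Real.log ((d : ℝ) + 1) := by
    have h1 : (K : ℝ) ≤ 66 * p * ((d : ℝ) + 1) := by
      have h2 : K ≤ 66 * p * (d + 1) := by
        rw [hKd]
        apply max_le
        · nlinarith
        · nlinarith
      exact_mod_cast h2
    have h3 : (0 : ℝ) < K := by
      have : ((64 + 2 * p : ℕ) : ℝ) ≤ K := by exact_mod_cast hK64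
      push_cast at this
      linarith
    have h4 := Real.log_le_log h3 h1
    rw [Real.log_mul (by positivity) (by linarith), Real.log_mul (by norm_num) (by linarith)]
      at h4
    have h5 : Real.log 66 ≤ 5.2 := by
      have h6 : Real.log 66 ≤ Real.log (2 ^ 7) := Real.log_le_log (by norm_num) (by norm_num)
      rw [Real.log_pow] at h6
      have := Real.log_two_lt_d9
      push_cast at h6
      linarith
    have h7 := Real.log_le_sub_one_of_pos (show (0 : ℝ) < p by linarith)
    linarith
  have hNK : K + 2 * w2 + 2 * b + 4 * p ≤ N := by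
    have h1 : (K : ℝ) ≤ d + (64 + 2 * p) := by
      have : K ≤ d + (64 + 2 * p) := by
        rw [hKd]
        apply max_le
        · omega
        · omega
      exact_mod_cast this
    have h2 : (K : ℝ) + 2 * w2 + 2 * b + 4 * p ≤ N := by
      refine le_trans ?_ hN
      have h3 : ((b : ℝ) + 2) * Real.log K ≤
          (b + 2) * (4.2 + p + Real.log ((d : ℝ) + 1)) :=
        mul_le_mul_of_nonneg_left hlogKd (by linarith)
      have h4 : 0 ≤ (b : ℝ) * Real.log K := by positivity
      have h5 : 0 ≤ (b : ℝ) * Real.log ((d : ℝ) + 1) := by positivity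
      have h6 : 0 ≤ (b : ℝ) * (p - 1) := mul_nonneg hb0 (by linarith)
      nlinarith
    exact_mod_cast h2
  obtain ⟨c2, e1, e2, e3⟩ := greedy_LC
    (fun u v => Finset.Ico K N \ ((W u ∪ blk p (g u)) ∪ (W v ∪ blk p (g v)))) (by
    intro a b
    rw [Finset.union_comm]) _ Γ2 rfl (by
    intro u v _
    have h1 := Finset.le_card_sdiff ((W u ∪ blk p (g u)) ∪ (W v ∪ blk p (g v)))
      (Finset.Ico K N)
    have h2 := Finset.card_union_le (W u ∪ blk p (g u)) (W v ∪ blk p (g v))
    have h21 := Finset.card_union_le (W u) (blk p (g u))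
    have h22 := Finset.card_union_le (W v) (blk p (g v))
    have h3 := hW u
    have h4 := hW v
    have h31 := card_blk p hp (g u)
    have h41 := card_blk p hp (g v)
    have h5 := hdeg2 u
    have h6 := hdeg2 v
    rw [Nat.card_Ico] at h1
    omega)
  have hold : ∀ u v, Γ.Adj u v → ¬ Γ2.Adj u v → (Γ \ R).Adj u v ∧
      c1 u v ∉ (W u ∪ blk p (g u)) ∪ (W v ∪ blk p (g v)) ∧ c1 u v < K := by
    intro u v h1 h2
    have h3 : (Γ \ R).Adj u v := by
      rw [SimpleGraph.sdiff_adj]
      exact ⟨h1, fun h => h2 (by rw [hΓ2, SimpleGraph.sup_adj]; exact Or.inl h)⟩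
    have h4 : ¬ C.Adj u v := fun h => h2 (by rw [hΓ2, SimpleGraph.sup_adj]; exact Or.inr h)
    refine ⟨h3, fun h => h4 ⟨h3, ?_⟩, hlt u v h3⟩
    simpa only [Finset.mem_union] using h
  have hnew : ∀ u v, Γ2.Adj u v → K ≤ c2 u v ∧ c2 u v < N ∧
      c2 u v ∉ (W u ∪ blk p (g u)) ∪ (W v ∪ blk p (g v)) := by
    intro u v h
    have h1 := e2 u v h
    rw [Finset.mem_sdiff, Finset.mem_Ico] at h1
    exact ⟨h1.1.1, h1.1.2, h1.2⟩
  refine ⟨fun u v => if Γ2.Adj u v then c2 u v else c1 u v, ?_, ?_, ?_⟩
  · intro u v huv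
    simp only
    by_cases h : Γ2.Adj u v
    · rw [if_pos h, if_pos h.symm]
      exact e1 u v h
    · rw [if_neg h, if_neg (fun h' => h h'.symm)]
      exact hcol.1 u v
  · intro u v huv
    simp only
    rw [Finset.mem_sdiff, Finset.mem_range]
    by_cases h : Γ2.Adj u v
    · rw [if_pos h]
      obtain ⟨_, h2, h3⟩ := hnew u v h
      exact ⟨h2, h3⟩
    · rw [if_neg h]
      obtain ⟨_, h2, h3⟩ := hold u v huv h
      exact ⟨by omega, h2⟩
  · intro u v x huv hux hvx
    simp only
    by_cases h : Γ2.Adj u v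
    · rw [if_pos h]
      obtain ⟨h1, _, _⟩ := hnew u v h
      by_cases h' : Γ2.Adj u x
      · rw [if_pos h']
        exact e3 u v x h h' hvx
      · rw [if_neg h']
        obtain ⟨_, _, h4⟩ := hold u x hux h'
        omega
    · rw [if_neg h]
      obtain ⟨h0, _, h4⟩ := hold u v huv h
      by_cases h' : Γ2.Adj u x
      · rw [if_pos h']
        obtain ⟨h1, _, _⟩ := hnew u x h'
        omega
      · rw [if_neg h']
        obtain ⟨h0', _, _⟩ := hold u x hux h'
        exact hcol.2 u v x h0 h0' hvx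

/-- the combinatorial part -/
theorem combPW (p : ℕ) (hp : 1 ≤ p) (G : SimpleGraph V) (T : Finset V)
    (L : V → V → Finset ℕ) (M : V → Finset ℕ)
    (hdeg : ∀ v, v ∉ T →
      dg G v + ((nb G v).filter (fun w => w ∈ T)).card * (2 * p - 1) < (M v).card)
    (h0 : LP p (A_meetX G T) L M)
    (hfin : ∀ (g : V → ℕ) (W : V → Finset ℕ),
      (∀ x, (W x).card ≤ ((nb G x).filter (fun w => w ∈ T)).card) →
      LC (cutX G T) (fun x y => L x y \ ((W x ∪ blk p (g x)) ∪ (W y ∪ blk p (g y))))) :
    LP p G L M := by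
  classical
  obtain ⟨f0, g0, hf1, hf2, hf3, hg1, hg2, hg3⟩ := h0
  obtain ⟨g, k1, k2, k3, k4⟩ := labels p hp G T M f0 g0 hdeg hg1 (fun a b ha _ hab =>
    hg2 a b ⟨hab, Or.inl ha⟩) Finset.univ
  obtain ⟨f1, e1, e2, e3⟩ := hfin g (fun a => ((nb G a).filter (fun w => w ∈ T)).image (f0 a))
    (fun a => Finset.card_image_le)
  have hcut : ∀ a b, G.Adj a b → ¬ (a ∈ T ∨ b ∈ T) → (cutX G T).Adj a b := by
    intro a b hab h
    rw [not_or] at h
    exact (cutX_adj G T a b).2 ⟨hab, h.1, h.2⟩
  have hGT : ∀ a b, G.Adj a b → (a ∈ T ∨ b ∈ T) → (A_meetX G T).Adj a b := fun a b hab h =>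
    ⟨hab, h⟩
  have hmix : ∀ a b c, G.Adj a b → G.Adj a c → (a ∈ T ∨ b ∈ T) → ¬ (a ∈ T ∨ c ∈ T) →
      f0 a b ≠ f1 a c := by
    intro a b c hab hac h h' heq
    have hbT : b ∈ T := by tauto
    have j1 := e2 a c (hcut a c hac h')
    simp only [Finset.mem_sdiff, Finset.mem_union, not_or] at j1
    apply j1.2.1.1
    rw [← heq]
    exact Finset.mem_image_of_mem _ (Finset.mem_filter.2 ⟨(mem_nb G a b).2 hab, hbT⟩)
  refine ⟨fun a b => if a ∈ T ∨ b ∈ T then f0 a b else f1 a b, g, ?_, ?_, ?_, k2, ?_, ?_⟩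
  · intro a b hab
    by_cases h : a ∈ T ∨ b ∈ T
    · simp only [if_pos h, if_pos h.symm]
      exact hf1 a b (hGT a b hab h)
    · have h' : ¬ (b ∈ T ∨ a ∈ T) := fun h' => h h'.symm
      simp only [if_neg h, if_neg h']
      exact e1 a b (hcut a b hab h)
  · intro a b hab
    by_cases h : a ∈ T ∨ b ∈ T
    · simp only [if_pos h]
      exact hf2 a b (hGT a b hab h)
    · simp only [if_neg h]
      exact (Finset.mem_sdiff.1 (e2 a b (hcut a b hab h))).1
  · intro a b c hab hac hbc
    by_cases h : a ∈ T ∨ b ∈ T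
    · by_cases h' : a ∈ T ∨ c ∈ T
      · simp only [if_pos h, if_pos h']
        exact hf3 a b c (hGT a b hab h) (hGT a c hac h') hbc
      · simp only [if_pos h, if_neg h']
        exact hmix a b c hab hac h h'
    · by_cases h' : a ∈ T ∨ c ∈ T
      · simp only [if_neg h, if_pos h']
        exact (hmix a c b hac hab h' h).symm
      · simp only [if_neg h, if_neg h']
        exact e3 a b c (hcut a b hab h) (hcut a c hac h') hbc
  · intro a b hab
    exact k3 a b (Finset.mem_union_right _ (Finset.mem_univ _))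
      (Finset.mem_union_right _ (Finset.mem_univ _)) hab
  · intro a b hab
    by_cases haT : a ∈ T
    · have h : a ∈ T ∨ b ∈ T := Or.inl haT
      simp only [if_pos h]
      rw [k1 a haT]
      exact hg3 a b (hGT a b hab h)
    · by_cases hbT : b ∈ T
      · have h : a ∈ T ∨ b ∈ T := Or.inr hbT
        simp only [if_pos h]
        exact k4 a b haT (Finset.mem_univ _) hbT hab
      · have h : ¬ (a ∈ T ∨ b ∈ T) := by tauto
        simp only [if_neg h]
        have j1 := e2 a b (hcut a b hab h)
        simp only [Finset.mem_sdiff, Finset.mem_union, not_or] at j1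
        exact (far_of_notMem j1.2.1.2).symm

/-- **(p,1)-total labellings with few edges at the vertices of large degree.** -/
theorem mainPW (p : ℕ) (hp : 1 ≤ p) (G : SimpleGraph V) (T : Finset V) (D : ℕ) (a : ℝ) (b : ℕ)
    (ha : 34 * a * (1 + Real.log D) ≤ D) (hap : 4 * p * a ≤ D)
    (hdeg : ∀ v, dg G v ≤ D) (h1 : Dens (A_meetX G T) a)
    (h2 : ∀ v ∉ T, ((nb G v).filter (fun w => w ∈ T)).card ≤ b)
    (h3 : ∀ v ∉ T, (((nb G v).filter (fun w => w ∉ T)).card : ℝ) ≤
      D - 3300 * (b + 2) * (p + Real.log D)) :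
    LP p G (fun _ _ => range (D + 2 * p - 1)) (fun _ => range (D + 2 * p - 1)) := by
  classical
  have hpr : (1 : ℝ) ≤ p := by exact_mod_cast hp
  have hb0 : (0 : ℝ) ≤ b := by positivity
  have hlogD : 0 ≤ Real.log (D : ℝ) := Real.log_natCast_nonneg D
  have hcard : D + 2 * p ≤ (range (D + 2 * p - 1)).card + 1 := by
    rw [card_range]
    omega
  have h0 : LP p (A_meetX G T) (fun _ _ => range (D + 2 * p - 1))
      (fun _ => range (D + 2 * p - 1)) := by
    refine main_p p hp D a ha hap _ _ (fun _ _ => rfl) (fun _ => hcard) _ (A_meetX G T) rfl ?_ h1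
      (fun _ _ _ => hcard)
    intro v
    exact (dg_mono (G := G) (H := A_meetX G T)
      (fun x y hxy => ((A_meetX_adj G T x y).1 hxy).1) v).trans (hdeg v)
  have hp21 : ((2 * p - 1 : ℕ) : ℝ) = 2 * p - 1 := by
    rw [Nat.cast_sub (by omega)]
    push_cast
    ring
  refine combPW p hp G T _ _ ?_ h0 ?_
  · intro v hv
    have k0 : (((nb G v).filter (fun w => w ∈ T)).card : ℝ) ≤ b := by exact_mod_cast h2 v hv
    have k1 := h3 v hv
    have k4 : dg G v = ((nb G v).filter (fun w => w ∈ T)).card +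
        ((nb G v).filter (fun w => w ∉ T)).card := by
      unfold dg
      exact (card_filter_add_card_filter_not (s := nb G v) (fun w => w ∈ T)).symm
    have k5 : ((dg G v + ((nb G v).filter (fun w => w ∈ T)).card * (2 * p - 1) : ℕ) : ℝ) ≤
        (D : ℝ) := by
      rw [k4]
      push_cast [hp21]
      have k6 : (((nb G v).filter (fun w => w ∈ T)).card : ℝ) * (2 * p) ≤ b * (2 * p) :=
        mul_le_mul_of_nonneg_right k0 (by linarith)
      have k7 : 0 ≤ (b : ℝ) * p := by positivity
      have k8 : 0 ≤ (b : ℝ) * Real.log D := by positivity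
      nlinarith
    have k6 : dg G v + ((nb G v).filter (fun w => w ∈ T)).card * (2 * p - 1) ≤ D := by
      exact_mod_cast k5
    rw [card_range]
    omega
  · intro g W hW
    by_cases hE : ∃ x y, (cutX G T).Adj x y
    · obtain ⟨x0, y0, hxy0⟩ := hE
      have : Nonempty V := ⟨x0⟩
      obtain ⟨v0, hv0⟩ := Finite.exists_max (fun v : V => dg (cutX G T) v)
      have hpos : 0 < dg (cutX G T) v0 := by
        refine lt_of_lt_of_le ?_ (hv0 x0)
        unfold dg
        exact card_pos.2 ⟨y0, (mem_nb _ _ _).2 hxy0⟩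
      have hv0T : v0 ∉ T := by
        unfold dg at hpos
        obtain ⟨w, hw⟩ := card_pos.1 hpos
        rw [mem_nb, cutX_adj] at hw
        exact hw.2.1
      have hd1 : dg (cutX G T) v0 ≤ ((nb G v0).filter (fun w => w ∉ T)).card := by
        unfold dg
        apply card_le_card
        intro w hw
        rw [mem_nb, cutX_adj] at hw
        exact mem_filter.2 ⟨(mem_nb _ _ _).2 hw.1, hw.2.2⟩
      have hd2 : (dg (cutX G T) v0 : ℝ) ≤ D - 3300 * (b + 2) * (p + Real.log D) := by
        have := h3 v0 hv0T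
        have h4 : (dg (cutX G T) v0 : ℝ) ≤ ((nb G v0).filter (fun w => w ∉ T)).card := by
          exact_mod_cast hd1
        linarith
      have hbp : 0 ≤ (b : ℝ) * p := by positivity
      have hbl : 0 ≤ (b : ℝ) * Real.log D := by positivity
      have hd3 : (dg (cutX G T) v0 : ℝ) + 1 ≤ D := by nlinarith
      have hd0 : (0 : ℝ) ≤ dg (cutX G T) v0 := by positivity
      have hlog1 : Real.log ((dg (cutX G T) v0 : ℝ) + 1) ≤ Real.log D :=
        Real.log_le_log (by linarith) hd3
      obtain ⟨f, e1, e2, e3⟩ := edge_avoidP (cutX G T) (dg (cutX G T) v0) p b (D + 2 * p - 1) hp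
        hv0 g (fun v => if v ∈ T then ∅ else W v) (by
          intro v
          by_cases hv : v ∈ T
          · rw [if_pos hv, card_empty]
            exact Nat.zero_le _
          · rw [if_neg hv]
            exact (hW v).trans (h2 v hv)) (by
          have k1 : ((D + 2 * p - 1 : ℕ) : ℝ) = D + 2 * p - 1 := by
            rw [Nat.cast_sub (by omega)]
            push_cast
            ring
          rw [k1]
          have k2 : 3300 * ((b : ℝ) + 2) * (p + Real.log ((dg (cutX G T) v0 : ℝ) + 1)) ≤
              3300 * (b + 2) * (p + Real.log D) := by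
            apply mul_le_mul_of_nonneg_left _ (by positivity)
            linarith
          linarith)
      refine ⟨f, e1, ?_, e3⟩
      intro x y hxy
      obtain ⟨hxy1, hxT, hyT⟩ := (cutX_adj G T x y).1 hxy
      have k1 := e2 x y hxy
      simp only [if_neg hxT, if_neg hyT] at k1
      exact k1
    · push Not at hE
      exact ⟨fun _ _ => 0, fun x y h => absurd h (hE x y), fun x y h => absurd h (hE x y),
        fun x y z h => absurd h (hE x y)⟩

end Pool.Agent.N577.DT
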